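import Pool.Agent.V8H69.TD.Stm

/-! # (KM): doubly transitive groups of degree `14` containing a cycle of length `13` -/

set_option autoImplicit false

namespace Pool.Agent.V8H61.TD

open Equiv Pool.Agent.V8H69.TD

/-- the negative modulo `13` -/
def nm (u : ℕ) : ℕ := Nat.mod (Nat.sub 13 u) 13

/-- `z ↦ e / z` -/
def tt (e z : ℕ) : ℕ := af e 0 (iv z)

/-- `z ↦ e / (z - u) - w` -/
def kk (e u w z : ℕ) : ℕ := af 1 (nm w) (tt e (af 1 (nm u) z))

theorem nm_lt (u : ℕ) : nm u < 13 := Nat.mod_lt _ (by norm_num)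

theorem Y_val : ∀ a < 13, ∀ z : Fin 14, ((yY ^ a) z : ℕ) = af 1 a z := by decide +kernel

theorem chk_kk : ∀ e ∈ sq, ∀ u < 13, ∀ v < 13, u ≠ v →
    kk e u (tt e (af 1 (nm u) v)) u = 13 ∧ kk e u (tt e (af 1 (nm u) v)) v = 0 ∧
      tt e (af 1 (nm u) v) < 13 := by
  decide +kernel

theorem chk_inv : ∀ e ∈ sq, ∀ f ∈ sq, ∀ u < 13, ∀ v < 13, u ≠ v →
    tt f (kk e u (tt e (af 1 (nm u) v)) 13) = kk e u (tt e (af 1 (nm u) v)) 13 ∧
    tt f (kk e u (tt e (af 1 (nm u) v)) 0) = kk e u (tt e (af 1 (nm u) v)) 0 →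
    ∀ z < 14, tt f (kk e u (tt e (af 1 (nm u) v)) z) = kk e u (tt e (af 1 (nm u) v)) (af 12 0 z) := by
  decide +kernel

theorem chk_u0 : ∀ e ∈ sq, ∃ b < 13, ∀ z < 14,
    af 1 (nm b) (tt e (af 1 b (tt e (af 1 (nm b) (tt e z))))) = af 12 0 z := by
  decide +kernel

theorem chk_tr : ∀ a < 13, ∀ y < 14, af 1 a (af 12 0 y) = af 12 (Nat.mod (Nat.mul 2 a) 13) (af 1 a y) := by
  decide +kernel

theorem chk_ua : ∀ a < 13, ∀ y < 14,
    af 1 a (af 12 0 (af 1 (nm a) y)) = af 12 (Nat.mod (Nat.mul 2 a) 13) y := by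
  decide +kernel

theorem chk_add : ∀ m < 13, ∀ k < 12, 1 ≤ k →
    af 12 (Nat.mod (Nat.mul 2 (af m 0 k)) 13) (af m 0 (Nat.sub k 1)) = af m 0 (k + 1) ∧
    af 12 (Nat.mod (Nat.mul 2 k) 13) (Nat.sub k 1) = k + 1 := by
  decide +kernel

theorem chk_mt : ∀ m < 13, 1 ≤ m → ∀ e ∈ sq,
    (∀ z < 14, af m 0 (tt e (af m 0 (tt e z))) = z) ∧ (af m 0 (tt e 1) ∈ sq → m ∈ sq) := by
  decide +kernel

theorem chk_tte : ∀ e ∈ sq, (∀ z < 14, tt e (tt e z) = z) ∧ (∀ z < 13, af e 0 z < 13) := by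
  decide +kernel

theorem chk_fin : ∀ e ∈ sq, ∀ m ∈ sq, ∀ q < 13, ∃ f ∈ sq, ∃ r < 13,
    ∀ z < 14, tt e (af 1 q (af m 0 z)) = iv (af f r z) := by
  decide +kernel

theorem chk_q : ∀ m ∈ sq, ∀ q < 13, ∀ z < 14, af 1 q (af m 0 z) = af m q z := by
  decide +kernel

/-! ### the group -/

variable {H : Subgroup (Perm (Fin 14))}

/-- the standing assumptions -/
structure Hyp (H : Subgroup (Perm (Fin 14))) : Prop where
  inv : ∀ t ∈ H, t * t = 1 → t 13 = 0 → ∃ e ∈ sq, ∀ z : Fin 14, (t z : ℕ) = tt e z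
  tra : ∀ a b c d : Fin 14, a ≠ b → c ≠ d → ∃ h ∈ H, h a = c ∧ h b = d
  y : yY ∈ H

theorem hyp_of (hB : B3) (hs : ∀ h ∈ H, Perm.sign h = 1)
    (ht : ∀ a b c d : Fin 14, a ≠ b → c ≠ d → ∃ h ∈ H, h a = c ∧ h b = d) (hy : yY ∈ H)
    (hq : ∀ w ∈ H, ¬ QC w) : Hyp H := by
  refine ⟨fun t h1 h2 h3 => ?_, ht, hy⟩
  rcases hB t h2 (hs t h1) h3 with h | ⟨w, hw, h⟩
  · exact h
  · exfalso
    refine hq w ?_ h
    have : Subgroup.closure ({yY, t} : Set (Perm (Fin 14))) ≤ H := by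
      rw [Subgroup.closure_le]
      rintro x (rfl | rfl)
      · exact hy
      · exact h1
    exact this hw

theorem val_inj {a b : Fin 14} (h : (a : ℕ) = b) : a = b := Fin.ext h

theorem lt13 {a : Fin 14} (h : a ≠ 13) : (a : ℕ) < 13 := by
  have h1 := a.2
  have h2 : (a : ℕ) ≠ 13 := fun h3 => h (Fin.ext h3)
  omega

/-- there is an involution in `H` -/
theorem ex_inv (hH : Hyp H) : ∃ t ∈ H, t * t = 1 ∧ t ≠ 1 := by
  obtain ⟨h, hh, h1, h2⟩ := hH.tra 13 0 0 13 (by decide) (by decide)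
  have hpar : ∀ n : ℕ, (h ^ n) 13 = if n % 2 = 0 then 13 else 0 := by
    intro n
    induction n with
    | zero => simp
    | succ n ih =>
      rw [pow_succ', Perm.mul_apply, ih]
      rcases Nat.mod_two_eq_zero_or_one n with h3 | h3
      · rw [if_pos h3, h1, if_neg (by omega)]
      · rw [if_neg (by omega), h2, if_pos (by omega)]
  have hev : orderOf h % 2 = 0 := by
    by_contra h3
    have h4 := hpar (orderOf h)
    rw [pow_orderOf_eq_one, if_neg h3] at h4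
    exact absurd h4 (by decide)
  have hpos := orderOf_pos h
  refine ⟨h ^ (orderOf h / 2), H.pow_mem hh _, ?_, ?_⟩
  · rw [← pow_add, show orderOf h / 2 + orderOf h / 2 = orderOf h by omega, pow_orderOf_eq_one]
  · intro h3
    have h4 := Nat.le_of_dvd (by omega) (orderOf_dvd_of_pow_eq_one h3)
    omega

theorem ex_t (hH : Hyp H) : ∃ t ∈ H, ∃ e ∈ sq, ∀ z : Fin 14, (t z : ℕ) = tt e z := by
  obtain ⟨t, ht, h1, h2⟩ := ex_inv hH
  obtain ⟨a, ha⟩ : ∃ a, t a ≠ a := by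
    by_contra hcon
    push Not at hcon
    exact h2 (Equiv.ext hcon)
  obtain ⟨h, hh, h3, h4⟩ := hH.tra a (t a) 13 0 (Ne.symm ha) (by decide)
  have h5 : h * t * h⁻¹ ∈ H := H.mul_mem (H.mul_mem hh ht) (H.inv_mem hh)
  refine ⟨h * t * h⁻¹, h5, hH.inv _ h5 ?_ ?_⟩
  · calc h * t * h⁻¹ * (h * t * h⁻¹) = h * (t * t) * h⁻¹ := by group
      _ = 1 := by rw [h1]; group
  · have : h⁻¹ 13 = a := by rw [← h3]; simp
    rw [Perm.mul_apply, Perm.mul_apply, this, h4]

/-- uniqueness of the involution fixing `13` and `0` -/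
theorem uniq (hH : Hyp H) (t : Perm (Fin 14)) (ht : t ∈ H) (h1 : t * t = 1) (h2 : t ≠ 1)
    (h13 : t 13 = 13) (h0 : t 0 = 0) : ∀ z : Fin 14, (t z : ℕ) = af 12 0 z := by
  obtain ⟨s, hs, e, he, hse⟩ := ex_t hH
  obtain ⟨u, hu⟩ : ∃ a, t a ≠ a := by
    by_contra hcon
    push Not at hcon
    exact h2 (Equiv.ext hcon)
  have htt : ∀ z, t (t z) = z := fun z => by rw [← Perm.mul_apply, h1, Perm.one_apply]
  have hu13 : u ≠ 13 := fun h => hu (by rw [h, h13])
  have hv13 : t u ≠ 13 := fun h => hu13 (by rw [← htt u, h, h13])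
  have hul := lt13 hu13
  have hvl := lt13 hv13
  have huv : (u : ℕ) ≠ t u := fun h => hu (Fin.ext h.symm)
  obtain ⟨c1, c2, c3⟩ := chk_kk e he u hul (t u) hvl huv
  set w := tt e (af 1 (nm u) (t u)) with hw
  set k := yY ^ (nm w) * s * yY ^ (nm u) with hk
  have hkH : k ∈ H := H.mul_mem (H.mul_mem (H.pow_mem hH.y _) hs) (H.pow_mem hH.y _)
  have kval : ∀ z : Fin 14, (k z : ℕ) = kk e u w z := by
    intro z
    rw [hk, Perm.mul_apply, Perm.mul_apply, Y_val _ (nm_lt _), hse, Y_val _ (nm_lt _), kk]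
  have ku : k u = 13 := Fin.ext (by rw [kval, c1]; rfl)
  have kv : k (t u) = 0 := Fin.ext (by rw [kval, c2]; rfl)
  have hr : k * t * k⁻¹ ∈ H := H.mul_mem (H.mul_mem hkH ht) (H.inv_mem hkH)
  have hr2 : k * t * k⁻¹ * (k * t * k⁻¹) = 1 := by
    calc k * t * k⁻¹ * (k * t * k⁻¹) = k * (t * t) * k⁻¹ := by group
      _ = 1 := by rw [h1]; group
  have hr13 : (k * t * k⁻¹) 13 = 0 := by
    have : k⁻¹ 13 = u := by rw [← ku]; simp
    rw [Perm.mul_apply, Perm.mul_apply, this, kv]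
  obtain ⟨f, hf, hrf⟩ := hH.inv _ hr hr2 hr13
  have hkt : ∀ z : Fin 14, (k (t z) : ℕ) = tt f (kk e u w z) := by
    intro z
    have h3 := hrf (k z)
    rw [kval] at h3
    have h4 : (k * t * k⁻¹) (k z) = k (t z) := by
      rw [Perm.mul_apply (k * t), Perm.mul_apply k t]
      exact congrArg (fun x => k (t x)) (k.symm_apply_apply z)
    rw [← h3, h4]
  have d := chk_inv e he f hf u hul (t u) hvl huv
    ⟨by
      have h3 := hkt 13
      rw [h13, kval] at h3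
      exact h3.symm, by
      have h3 := hkt 0
      rw [h0, kval] at h3
      exact h3.symm⟩
  intro z
  have h3 := d z z.2
  have hlt : af 12 0 z < 14 := by
    have : ∀ z < 14, af 12 0 z < 14 := by decide +kernel
    exact this z z.2
  have h4 : k (t z) = k ⟨af 12 0 z, hlt⟩ := Fin.ext (by rw [hkt, kval]; exact h3)
  have h5 := k.injective h4
  rw [h5]

/-- the involution `z ↦ -z` -/
theorem ex_u0 (hH : Hyp H) : ∃ v ∈ H, ∀ z : Fin 14, (v z : ℕ) = af 12 0 z := by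
  obtain ⟨s, hs, e, he, hse⟩ := ex_t hH
  obtain ⟨b, hb, h⟩ := chk_u0 e he
  refine ⟨yY ^ nm b * s * yY ^ b * s * yY ^ nm b * s, ?_, ?_⟩
  · exact H.mul_mem (H.mul_mem (H.mul_mem (H.mul_mem (H.mul_mem (H.pow_mem hH.y _) hs)
      (H.pow_mem hH.y _)) hs) (H.pow_mem hH.y _)) hs
  · intro z
    simp only [Perm.mul_apply]
    rw [Y_val _ (nm_lt _), hse, Y_val _ hb, hse, Y_val _ (nm_lt _), hse]
    exact h z z.2

/-- the involution `z ↦ 2 a - z` -/
theorem ex_ua (hH : Hyp H) (a : ℕ) (ha : a < 13) :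
    ∃ v ∈ H, ∀ z : Fin 14, (v z : ℕ) = af 12 (Nat.mod (Nat.mul 2 a) 13) z := by
  obtain ⟨v, hv, h⟩ := ex_u0 hH
  refine ⟨yY ^ a * v * yY ^ nm a, H.mul_mem (H.mul_mem (H.pow_mem hH.y _) hv) (H.pow_mem hH.y _), ?_⟩
  intro z
  rw [Perm.mul_apply, Perm.mul_apply, Y_val _ ha, h, Y_val _ (nm_lt _)]
  exact chk_ua a ha z z.2

theorem chk_ua2 : ∀ a < 13, (∀ z < 14, af 12 (Nat.mod (Nat.mul 2 a) 13)
      (af 12 (Nat.mod (Nat.mul 2 a) 13) z) = z) ∧ af 12 (Nat.mod (Nat.mul 2 a) 13) 13 = 13 ∧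
    af 12 (Nat.mod (Nat.mul 2 a) 13) a = a ∧
    ∃ z < 14, af 12 (Nat.mod (Nat.mul 2 a) 13) z ≠ z := by
  decide +kernel

/-- the reflections are permuted -/
theorem refl_conj (hH : Hyp H) (h : Perm (Fin 14)) (hh : h ∈ H) (h13 : h 13 = 13)
    (a : Fin 14) (ha : a ≠ 13) (x y : Fin 14)
    (hxy : (y : ℕ) = af 12 (Nat.mod (Nat.mul 2 a) 13) x) :
    (h y : ℕ) = af 12 (Nat.mod (Nat.mul 2 (h a)) 13) (h x) := by
  obtain ⟨v, hv, hva⟩ := ex_ua hH a (lt13 ha)
  obtain ⟨k1, k2, k3, z0, hz0, k4⟩ := chk_ua2 a (lt13 ha)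
  have hv2 : ∀ z, v (v z) = z := fun z => Fin.ext (by rw [hva, hva]; exact k1 z z.2)
  have hv13 : v 13 = 13 := Fin.ext (by rw [hva]; exact k2)
  have hvaa : v a = a := Fin.ext (by rw [hva]; exact k3)
  have hha13 : h a ≠ 13 := fun hc => ha (h.injective (by rw [hc, h13]))
  have hal := lt13 hha13
  set c := (yY ^ ((h a : Fin 14) : ℕ))⁻¹ * h with hc
  have hyc : ∀ z, (yY ^ ((h a : Fin 14) : ℕ)) (c z) = h z := by
    intro z
    rw [hc, Perm.mul_apply]
    simp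
  have hcH : c ∈ H := H.mul_mem (H.inv_mem (H.pow_mem hH.y _)) hh
  have c13 : c 13 = 13 := by
    apply (yY ^ ((h a : Fin 14) : ℕ)).injective
    rw [hyc, h13]
    apply Fin.ext
    rw [Y_val _ hal]
    rfl
  have ca : c a = 0 := by
    apply (yY ^ ((h a : Fin 14) : ℕ)).injective
    rw [hyc]
    apply Fin.ext
    rw [Y_val _ hal]
    have : ∀ q < 13, q = af 1 q 0 := by decide +kernel
    exact this _ hal
  have ci13 : c⁻¹ 13 = 13 := by
    rw [Perm.inv_eq_iff_eq, c13]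
  have ci0 : c⁻¹ 0 = a := by
    rw [Perm.inv_eq_iff_eq, ca]
  have hu := uniq hH (c * v * c⁻¹) (H.mul_mem (H.mul_mem hcH hv) (H.inv_mem hcH)) (by
      have h1 : v * v = 1 := Equiv.ext fun z => by rw [Perm.mul_apply, hv2, Perm.one_apply]
      calc c * v * c⁻¹ * (c * v * c⁻¹) = c * (v * v) * c⁻¹ := by group
        _ = 1 := by rw [h1]; group) (by
      intro h1
      have h2 : v = 1 := by
        calc v = c⁻¹ * (c * v * c⁻¹) * c := by group
          _ = 1 := by rw [h1]; group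
      apply k4
      have h3 := hva ⟨z0, hz0⟩
      rw [h2, Perm.one_apply] at h3
      exact h3.symm) (by
      rw [Perm.mul_apply, Perm.mul_apply, ci13, hv13, c13]) (by
      rw [Perm.mul_apply, Perm.mul_apply, ci0, hvaa, ca])
  have hvx : v x = y := Fin.ext (by rw [hva, hxy])
  have h1 : (c y : ℕ) = af 12 0 (c x) := by
    have h2 := hu (c x)
    rw [Perm.mul_apply, Perm.mul_apply] at h2
    have h3 : c⁻¹ (c x) = x := by simp
    rw [h3, hvx] at h2
    exact h2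
  rw [← hyc y, ← hyc x, Y_val _ hal, Y_val _ hal, h1]
  exact chk_tr _ hal _ (c x).2

/-- elements fixing `13` and `0` -/
theorem fix2 (hH : Hyp H) (h : Perm (Fin 14)) (hh : h ∈ H) (h13 : h 13 = 13) (h0 : h 0 = 0) :
    ∃ m ∈ sq, ∀ z : Fin 14, (h z : ℕ) = af m 0 z := by
  have h1 : h 1 ≠ 13 := fun hc => absurd (h.injective (hc.trans h13.symm)) (by decide)
  have hm := lt13 h1
  set m := ((h 1 : Fin 14) : ℕ) with hmd
  have key : ∀ k : ℕ, ∀ hk : k < 12, 1 ≤ k → (h ⟨k - 1, by omega⟩ : ℕ) = af m 0 (Nat.sub k 1) ∧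
      (h ⟨k, by omega⟩ : ℕ) = af m 0 k → (h ⟨k + 1, by omega⟩ : ℕ) = af m 0 (k + 1) := by
    intro k hk hk1 hh2
    obtain ⟨c1, c2⟩ := chk_add m hm k hk hk1
    have h2 := refl_conj hH h hh h13 ⟨k, by omega⟩ (by
        intro hc
        have := congrArg Fin.val hc
        simp at this
        omega) ⟨k - 1, by omega⟩ ⟨k + 1, by omega⟩ c2.symm
    rw [h2, hh2.1, hh2.2]
    exact c1
  have hall : ∀ k : ℕ, ∀ hk : k < 12, (h ⟨k, by omega⟩ : ℕ) = af m 0 k ∧
      (h ⟨k + 1, by omega⟩ : ℕ) = af m 0 (k + 1) := by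
    intro k
    induction k with
    | zero =>
      intro hk
      constructor
      · have : (h 0 : ℕ) = 0 := by rw [h0]; rfl
        have e : ∀ q < 13, af q 0 0 = 0 := by decide +kernel
        rw [e m hm]
        exact this
      · have e : ∀ q < 13, af q 0 (0 + 1) = q := by decide +kernel
        rw [e m hm]
        rfl
    | succ k ih =>
      intro hk
      obtain ⟨ih1, ih2⟩ := ih (by omega)
      exact ⟨ih2, key (k + 1) hk (by omega) ⟨ih1, ih2⟩⟩
  have hval : ∀ z : Fin 14, (h z : ℕ) = af m 0 z := by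
    rintro ⟨z, hz⟩
    rcases Nat.lt_or_ge z 12 with h2 | h2
    · exact (hall z h2).1
    · rcases Nat.lt_or_ge z 13 with h3 | h3
      · have : z = 12 := by omega
        subst this
        exact (hall 11 (by norm_num)).2
      · have : z = 13 := by omega
        subst this
        have : (h 13 : ℕ) = 13 := by rw [h13]; rfl
        exact this
  refine ⟨m, ?_, hval⟩
  obtain ⟨s, hs, e, he, hse⟩ := ex_t hH
  have hm1 : 1 ≤ m := by
    by_contra hc
    have h2 : h 1 = h 0 := by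
      rw [h0]
      apply Fin.ext
      have h3 : m = 0 := by omega
      rw [hmd] at h3
      rw [h3]
      rfl
    exact absurd (h.injective h2) (by decide)
  obtain ⟨c1, c2⟩ := chk_mt m hm hm1 e he
  obtain ⟨f, hf, hff⟩ := hH.inv (h * s) (H.mul_mem hh hs) (Equiv.ext fun z => Fin.ext (by
      simp only [Perm.mul_apply, Perm.one_apply]
      rw [hval, hse, hval, hse]
      exact c1 z z.2)) (by
      rw [Perm.mul_apply]
      have h2 : s 13 = 0 := by
        apply Fin.ext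
        rw [hse]
        have : ∀ e ∈ sq, tt e 13 = 0 := by decide +kernel
        exact this e he
      rw [h2, h0])
  apply c2
  have h2 := hff 1
  rw [Perm.mul_apply, hval, hse] at h2
  have h3 : af m 0 (tt e 1) = tt f 1 := h2
  rw [h3]
  have : ∀ f ∈ sq, tt f 1 ∈ sq := by decide +kernel
  exact this f hf

/-- elements fixing `13` -/
theorem fix1 (hH : Hyp H) (h : Perm (Fin 14)) (hh : h ∈ H) (h13 : h 13 = 13) :
    ∃ m ∈ sq, ∃ q < 13, ∀ z : Fin 14, (h z : ℕ) = af 1 q (af m 0 z) := by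
  have h0 : h 0 ≠ 13 := fun hc => absurd (h.injective (hc.trans h13.symm)) (by decide)
  have hq := lt13 h0
  set c := (yY ^ ((h 0 : Fin 14) : ℕ))⁻¹ * h with hc
  have hyc : ∀ z, (yY ^ ((h 0 : Fin 14) : ℕ)) (c z) = h z := by
    intro z
    rw [hc, Perm.mul_apply]
    simp
  have hcH : c ∈ H := H.mul_mem (H.inv_mem (H.pow_mem hH.y _)) hh
  have c13 : c 13 = 13 := by
    apply (yY ^ ((h 0 : Fin 14) : ℕ)).injective
    rw [hyc, h13]
    apply Fin.ext
    rw [Y_val _ hq]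
    rfl
  have c0 : c 0 = 0 := by
    apply (yY ^ ((h 0 : Fin 14) : ℕ)).injective
    rw [hyc]
    apply Fin.ext
    rw [Y_val _ hq]
    have : ∀ q < 13, q = af 1 q 0 := by decide +kernel
    exact this _ hq
  obtain ⟨m, hm, hcm⟩ := fix2 hH c hcH c13 c0
  refine ⟨m, hm, _, hq, fun z => ?_⟩
  rw [← hyc z, Y_val _ hq, hcm]

theorem km : B3 → KM := by
  intro hB H hs ht hy hq h hh
  have hH := hyp_of hB hs ht hy hq
  by_cases h13 : h 13 = 13
  · obtain ⟨m, hm, q, hq, hv⟩ := fix1 hH h hh h13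
    refine ⟨m, hm, q, hq, Or.inl fun z => ?_⟩
    rw [hv]
    exact chk_q m hm q hq z z.2
  · have hp := lt13 h13
    obtain ⟨s, hs', e, he, hse⟩ := ex_t hH
    obtain ⟨k1, k2⟩ := chk_tte e he
    set c := s * (yY ^ ((h 13 : Fin 14) : ℕ))⁻¹ * h with hc
    have hss : ∀ z, s (s z) = z := fun z => Fin.ext (by rw [hse, hse]; exact k1 z z.2)
    have hyc : ∀ z, (yY ^ ((h 13 : Fin 14) : ℕ)) (s (c z)) = h z := by
      intro z
      rw [hc, Perm.mul_apply, Perm.mul_apply, hss]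
      simp
    have hcH : c ∈ H := H.mul_mem (H.mul_mem hs' (H.inv_mem (H.pow_mem hH.y _))) hh
    have c13 : c 13 = 13 := by
      apply s.injective
      apply (yY ^ ((h 13 : Fin 14) : ℕ)).injective
      rw [hyc]
      apply Fin.ext
      rw [Y_val _ hp, hse]
      have e1 : ∀ e ∈ sq, tt e 13 = 0 := by decide +kernel
      have e2 : ∀ q < 13, q = af 1 q 0 := by decide +kernel
      have e3 : tt e ((13 : Fin 14) : ℕ) = 0 := e1 e he
      rw [e3]
      exact e2 _ hp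
    obtain ⟨m, hm, q, hq, hv⟩ := fix1 hH c hcH c13
    obtain ⟨f, hf, r, hr, hfr⟩ := chk_fin e he m hm q hq
    refine ⟨f, hf, r, hr, Or.inr ⟨_, hp, fun z => ?_⟩⟩
    rw [← hyc z, Y_val _ hp, hse, hv, hfr z z.2]

end Pool.Agent.V8H61.TD
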