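import Pool.Agent.V8H69.TD.Defs

/-!
# 2-homogeneity of the groups generated by the standard element and a permutation preserving no colour
-/

set_option autoImplicit false

namespace Pool.Agent.V8H61.TD

open Equiv Pool.Agent.V8H69.TD

/-! ## The functions evaluated by the kernel -/

def tb (m i : ℕ) : Bool := Nat.beq (Nat.land (Nat.shiftRight m i) 1) 1

def nib (t i : ℕ) : ℕ := Nat.land (Nat.shiftRight t (Nat.mul 4 i)) 15

/-- the type of the pair `a, b` -/
def ty (a b : ℕ) : ℕ :=
  nib 0xf3455436789abc3f34554c6789ab43f3455bc6789a543f345abc67895543f349abc67845543f389abc67345543f789abc66cba987f01221076cba980f01221876cba910f01229876cba210f012a9876cb2210f01ba9876c12210f0cba9876012210f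
    (Nat.add (Nat.mul 14 a) b)

def ra (u : ℕ) : ℕ := nib 0x777000 u

def rb (u : ℕ) : ℕ := nib 0xdcba987a98321 u

def adj (m a b : ℕ) : Bool := tb m (ty a b)

def cn (m a b : ℕ) : ℕ :=
  Nat.rec (motive := fun _ => ℕ) 0
    (fun z ih => Nat.add ih (cond (adj m a z) (cond (adj m z b) 1 0) 0)) 14

def key (m u : ℕ) : ℕ := Nat.add (cond (tb m u) 16 0) (cn m (ra u) (rb u))

def mk (f : ℕ → Bool) (n : ℕ) : ℕ :=
  Nat.rec (motive := fun _ => ℕ) 0 (fun u ih => Nat.add ih (cond (f u) (Nat.pow 2 u) 0)) n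

def cls (m t : ℕ) : ℕ := mk (fun u => Nat.beq (key m u) (key m t)) 13

def anyB (n : ℕ) (f : ℕ → Bool) : Bool :=
  Nat.rec (motive := fun _ => Bool) false (fun i ih => cond (f i) true ih) n

def allB (n : ℕ) (f : ℕ → Bool) : Bool :=
  Nat.rec (motive := fun _ => Bool) true (fun i ih => cond (f i) ih false) n

def pc3 (m i : ℕ) : ℕ :=
  Nat.add (cond (tb m i) 1 0) (Nat.add (cond (tb m (Nat.add i 1)) 1 0) (cond (tb m (Nat.add i 2)) 1 0))

def term (X : ℕ) : Bool :=
  cond (Nat.beq (pc3 X 0) (pc3 X 3)) (cond (Nat.beq X 63) true (cond (Nat.beq X 8128) true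
    (anyB 7 fun r => cond (Nat.beq X (Nat.pow 2 (Nat.add 6 r))) true
      (Nat.beq X (Nat.sub 8191 (Nat.pow 2 (Nat.add 6 r))))))) true

def good (m X : ℕ) : Bool :=
  cond (term X) true (cond (Nat.beq (Nat.land X m) 0) false (cond (Nat.beq (Nat.land X m) m) false true))

def check (m : ℕ) : Bool :=
  cond (term m) true
    (cond (anyB 13 fun u => cond (tb m u) (cond (Nat.beq (key m u) (key m 0)) false true) false) true
      (cond (anyB 13 fun t => good m (cls m t)) true
        (cond (anyB 13 fun t => good m (cls (cls m 1) t)) true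
          (cond (anyB 13 fun t => good m (cls (cls m 2) t)) true
            (anyB 13 fun t => good m (cls (cls (cls m 2) 2) t))))))

set_option maxRecDepth 100000 in
theorem check_all : allB 4095 (fun j => check (Nat.add (Nat.mul 2 j) 1)) = true := by
  decide +kernel

/-! ## Their meaning -/

theorem tb_eq (m i : ℕ) : tb m i = Nat.testBit m i := by
  rw [Nat.testBit_eq_decide_div_mod_eq]
  have h : Nat.land (Nat.shiftRight m i) 1 = m / 2 ^ i % 2 := by
    have h1 : Nat.land (Nat.shiftRight m i) 1 = (m >>> i) &&& 1 := rfl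
    rw [h1, Nat.and_one_is_mod, Nat.shiftRight_eq_div_pow]
  rw [tb, h]
  rcases Nat.mod_two_eq_zero_or_one (m / 2 ^ i) with h2 | h2 <;> rw [h2] <;> rfl

theorem anyB_iff (n : ℕ) (f : ℕ → Bool) : anyB n f = true ↔ ∃ i < n, f i = true := by
  induction n with
  | zero => simp [anyB]
  | succ n ih =>
    have : anyB (n + 1) f = cond (f n) true (anyB n f) := rfl
    rw [this]
    rcases h : f n with _ | _
    · simp only [cond_false, ih]
      constructor
      · rintro ⟨i, hi, h1⟩
        exact ⟨i, by omega, h1⟩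
      · rintro ⟨i, hi, h1⟩
        refine ⟨i, ?_, h1⟩
        rcases Nat.lt_succ_iff_lt_or_eq.1 hi with h2 | h2
        · exact h2
        · rw [h2, h] at h1
          exact absurd h1 (by decide)
    · simp only [cond_true, true_iff]
      exact ⟨n, by omega, h⟩

theorem allB_iff (n : ℕ) (f : ℕ → Bool) (h : allB n f = true) : ∀ i < n, f i = true := by
  induction n with
  | zero => intro i hi; omega
  | succ n ih =>
    have h1 : allB (n + 1) f = cond (f n) (allB n f) false := rfl
    rw [h1] at h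
    rcases h2 : f n with _ | _
    · rw [h2, cond_false] at h
      exact absurd h (by decide)
    · rw [h2, cond_true] at h
      intro i hi
      rcases Nat.lt_succ_iff_lt_or_eq.1 hi with h3 | h3
      · exact ih h i h3
      · rw [h3, h2]

theorem mk_succ (f : ℕ → Bool) (n : ℕ) : mk f (n + 1) = mk f n + cond (f n) (2 ^ n) 0 := rfl

theorem mk_lt (f : ℕ → Bool) (n : ℕ) : mk f n < 2 ^ n := by
  induction n with
  | zero => exact one_pos
  | succ n ih =>
    rw [mk_succ, pow_succ]
    have : cond (f n) (2 ^ n) 0 ≤ 2 ^ n := by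
      rcases f n with _ | _ <;> simp
    omega

theorem tb_mk (f : ℕ → Bool) (n v : ℕ) : tb (mk f n) v = (decide (v < n) && f v) := by
  rw [tb_eq]
  induction n with
  | zero =>
    have : mk f 0 = 0 := rfl
    rw [this]
    simp
  | succ n ih =>
    rw [mk_succ]
    rcases lt_trichotomy v n with h | h | h
    · have h1 : (mk f n + cond (f n) (2 ^ n) 0).testBit v = (mk f n).testBit v := by
        rcases f n with _ | _
        · simp
        · simp only [cond_true]
          rw [add_comm, Nat.testBit_two_pow_add_gt h]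
      rw [h1, ih]
      simp [h, Nat.lt_succ_of_lt h]
    · subst h
      have h0 : (mk f v).testBit v = false := Nat.testBit_lt_two_pow (mk_lt f v)
      rcases h2 : f v with _ | _
      · simp [h0]
      · simp only [cond_true]
        rw [add_comm, Nat.testBit_two_pow_add_eq, h0]
        simp
    · have h1 : mk f n + cond (f n) (2 ^ n) 0 < 2 ^ v :=
        (mk_succ f n ▸ mk_lt f (n + 1)).trans_le (Nat.pow_le_pow_right (by norm_num) h)
      rw [Nat.testBit_lt_two_pow h1]
      simp [show ¬ v < n + 1 by omega]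

theorem cn_eq (m : ℕ) (a b : Fin 14) :
    cn m a b = ∑ z : Fin 14, if adj m a z = true ∧ adj m z b = true then 1 else 0 := by
  have h : ∀ n : ℕ, (Nat.rec (motive := fun _ => ℕ) 0
      (fun z ih => Nat.add ih (cond (adj m a z) (cond (adj m z b) 1 0) 0)) n : ℕ)
      = ∑ z ∈ Finset.range n, if adj m a z = true ∧ adj m z b = true then 1 else 0 := by
    intro n
    induction n with
    | zero => rfl
    | succ n ih =>
      rw [Finset.sum_range_succ, ← ih]
      refine congrArg (Nat.add _) ?_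
      rcases adj m a n with _ | _ <;> rcases adj m n b with _ | _ <;> rfl
  rw [cn, h, Finset.sum_range]

theorem ty_s : ∀ a b : Fin 14, ty (sS a) (sS b) = ty a b := by decide

theorem ty_symm : ∀ a b : Fin 14, ty a b = ty b a := by decide

theorem ty_lt : ∀ a b : Fin 14, a ≠ b → ty a b < 13 := by decide

theorem ty_self : ∀ a : Fin 14, ty a a = 15 := by decide

theorem ty_rep : ∀ u : Fin 13, ty (ra u) (rb u) = u := by decide

theorem ra_lt : ∀ u : Fin 13, ra u < 14 := by decide

theorem rb_lt : ∀ u : Fin 13, rb u < 14 := by decide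

theorem ra_ne : ∀ u : Fin 13, ra u ≠ rb u := by decide

/-- representatives as elements of `Fin 14` -/
def fa (u : Fin 13) : Fin 14 := ⟨ra u, ra_lt u⟩

def fb (u : Fin 13) : Fin 14 := ⟨rb u, rb_lt u⟩

/-- each pair is a translate of its representative -/
theorem translate : ∀ a b : Fin 14, ∀ h : a ≠ b, ∃ i : Fin 7,
    ((sS ^ (i : ℕ)) (fa ⟨ty a b, ty_lt a b h⟩) = a ∧ (sS ^ (i : ℕ)) (fb ⟨ty a b, ty_lt a b h⟩) = b) ∨
    ((sS ^ (i : ℕ)) (fa ⟨ty a b, ty_lt a b h⟩) = b ∧ (sS ^ (i : ℕ)) (fb ⟨ty a b, ty_lt a b h⟩) = a) := by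
  decide +kernel

theorem adj_s (m : ℕ) (a b : Fin 14) : adj m (sS a) (sS b) = adj m a b := by
  rw [adj, adj, ty_s]

theorem adj_symm (m : ℕ) (a b : Fin 14) : adj m a b = adj m b a := by
  rw [adj, adj, ty_symm]

/-- `g` preserves the relation `X` -/
def Inv (g : Perm (Fin 14)) (X : ℕ) : Prop := ∀ a b : Fin 14, adj X (g a) (g b) = adj X a b

theorem inv_s (X : ℕ) : Inv sS X := adj_s X

theorem inv_mul {g h : Perm (Fin 14)} {X : ℕ} (hg : Inv g X) (hh : Inv h X) : Inv (g * h) X :=
  fun a b => (hg (h a) (h b)).trans (hh a b)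

theorem inv_one (X : ℕ) : Inv 1 X := fun _ _ => rfl

theorem inv_inv {g : Perm (Fin 14)} {X : ℕ} (hg : Inv g X) : Inv g⁻¹ X := fun a b => by
  have := hg (g⁻¹ a) (g⁻¹ b)
  simpa using this.symm

theorem inv_closure {x : Perm (Fin 14)} {X : ℕ} (hx : Inv x X) {g : Perm (Fin 14)}
    (hg : g ∈ Subgroup.closure ({x, sS} : Set (Perm (Fin 14)))) : Inv g X := by
  induction hg using Subgroup.closure_induction with
  | mem y hy =>
    rcases hy with rfl | hy
    · exact hx
    · rw [Set.mem_singleton_iff] at hy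
      rw [hy]
      exact inv_s X
  | one => exact inv_one X
  | mul y z _ _ h1 h2 => exact inv_mul h1 h2
  | inv y _ h1 => exact inv_inv h1

theorem cn_inv {g : Perm (Fin 14)} {X : ℕ} (hg : Inv g X) (a b : Fin 14) :
    cn X (g a) (g b) = cn X a b := by
  rw [cn_eq, cn_eq, ← Equiv.sum_comp g]
  exact Finset.sum_congr rfl fun z _ => by rw [hg a z, hg z b]

theorem cn_symm (X : ℕ) (a b : Fin 14) : cn X a b = cn X b a := by
  rw [cn_eq, cn_eq]
  refine Finset.sum_congr rfl fun z _ => ?_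
  simp only [adj_symm X a z, adj_symm X z b, and_comm]

/-- the key of a pair -/
def key2 (m : ℕ) (a b : Fin 14) : ℕ := cond (adj m a b) 16 0 + cn m a b

theorem key2_inv {g : Perm (Fin 14)} {X : ℕ} (hg : Inv g X) (a b : Fin 14) :
    key2 X (g a) (g b) = key2 X a b := by
  rw [key2, key2, hg, cn_inv hg]

theorem key2_symm (X : ℕ) (a b : Fin 14) : key2 X a b = key2 X b a := by
  rw [key2, key2, adj_symm, cn_symm]

theorem key_rep (m : ℕ) (u : Fin 13) : key m u = key2 m (fa u) (fb u) := by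
  have h : adj m (fa u) (fb u) = tb m u := by
    show tb m (ty (ra u) (rb u)) = tb m u
    rw [ty_rep]
  rw [key2, h]
  rfl

theorem inv_pow (X i : ℕ) : Inv (sS ^ i) X := by
  induction i with
  | zero => exact inv_one X
  | succ i ih =>
    rw [pow_succ]
    exact inv_mul ih (inv_s X)

theorem key_ty (m : ℕ) {a b : Fin 14} (h : a ≠ b) : key m (ty a b) = key2 m a b := by
  have h0 := key_rep m ⟨ty a b, ty_lt a b h⟩
  have h1 : key m (ty a b) = key2 m (fa ⟨ty a b, ty_lt a b h⟩) (fb ⟨ty a b, ty_lt a b h⟩) := h0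
  rw [h1]
  obtain ⟨i, hi | hi⟩ := translate a b h
  · rw [← key2_inv (inv_pow m i), hi.1, hi.2]
  · rw [← key2_inv (inv_pow m i), hi.1, hi.2, key2_symm]

theorem adj_self (X : ℕ) (hX : X < 2 ^ 13) (a : Fin 14) : adj X a a = false := by
  rw [adj, ty_self, tb_eq]
  exact Nat.testBit_lt_two_pow (hX.trans (by norm_num))

theorem cls_lt (m t : ℕ) : cls m t < 2 ^ 13 := mk_lt _ 13

theorem cls_inv {g : Perm (Fin 14)} {m : ℕ} (hg : Inv g m) (t : ℕ) : Inv g (cls m t) := by
  intro a b
  by_cases hab : a = b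
  · subst hab
    rw [adj_self _ (cls_lt m t), adj_self _ (cls_lt m t)]
  · have hgab : g a ≠ g b := fun h => hab (g.injective h)
    rw [adj, adj, cls, tb_mk, tb_mk, decide_eq_true (ty_lt a b hab), decide_eq_true (ty_lt _ _ hgab),
      key_ty m hab, key_ty m hgab, key2_inv hg]

/-! ## Terminal relations -/

theorem col_63 : ∀ a b : Fin 14, a ≠ b → (adj 63 a b = true ↔ col a b = 7) := by decide +kernel

theorem col_8128 : ∀ a b : Fin 14, a ≠ b → (adj 8128 a b = true ↔ ¬ col a b = 7) := by decide +kernel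

theorem col_r : ∀ r : Fin 7, ∀ a b : Fin 14, a ≠ b → (adj (2 ^ (6 + (r : ℕ))) a b = true ↔ col a b = r) := by
  decide +kernel

theorem col_r' : ∀ r : Fin 7, ∀ a b : Fin 14, a ≠ b →
    (adj (8191 - 2 ^ (6 + (r : ℕ))) a b = true ↔ ¬ col a b = r) := by
  decide +kernel

/-- the degree -/
def dg (X : ℕ) (a : Fin 14) : ℕ := ∑ z : Fin 14, cond (adj X a z) 1 0

theorem dg_inv {g : Perm (Fin 14)} {X : ℕ} (hg : Inv g X) (a : Fin 14) : dg X (g a) = dg X a := by
  rw [dg, dg, ← Equiv.sum_comp g]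
  exact Finset.sum_congr rfl fun z _ => by rw [hg a z]

theorem orb0 : ∀ a : Fin 14, a.val < 7 → ∃ i : Fin 7, (sS ^ (i : ℕ)) 0 = a := by decide

theorem orb7 : ∀ a : Fin 14, ¬ a.val < 7 → ∃ i : Fin 7, (sS ^ (i : ℕ)) 7 = a := by decide

theorem dg_zero (X : ℕ) (hX : X < 2 ^ 13) : dg X 0 = 2 * pc3 X 0 + ∑ r : Fin 7, cond (tb X (6 + r)) 1 0 := by
  have h15 : tb X 15 = false := by
    rw [tb_eq]
    exact Nat.testBit_lt_two_pow (hX.trans (by norm_num))
  have e : ∀ z : Fin 14, adj X (0 : Fin 14) z = tb X (ty (0 : Fin 14) z) := fun z => rfl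
  simp only [dg, e, Fin.sum_univ_succ, Fin.sum_univ_zero]
  have t : ty ((0 : Fin 14) : ℕ) ((0 : Fin 14) : ℕ) = 15 := by decide
  show cond (tb X 15) 1 0 + (cond (tb X 0) 1 0 + (cond (tb X 1) 1 0 + (cond (tb X 2) 1 0 +
    (cond (tb X 2) 1 0 + (cond (tb X 1) 1 0 + (cond (tb X 0) 1 0 + (cond (tb X 6) 1 0 +
    (cond (tb X 7) 1 0 + (cond (tb X 8) 1 0 + (cond (tb X 9) 1 0 + (cond (tb X 10) 1 0 +
    (cond (tb X 11) 1 0 + (cond (tb X 12) 1 0 + 0))))))))))))) =
    2 * (cond (tb X 0) 1 0 + (cond (tb X 1) 1 0 + cond (tb X 2) 1 0)) +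
    (cond (tb X 6) 1 0 + (cond (tb X 7) 1 0 + (cond (tb X 8) 1 0 + (cond (tb X 9) 1 0 +
    (cond (tb X 10) 1 0 + (cond (tb X 11) 1 0 + (cond (tb X 12) 1 0 + 0)))))))
  rw [h15]
  simp only [cond_false]
  omega

theorem dg_seven (X : ℕ) (hX : X < 2 ^ 13) : dg X 7 = 2 * pc3 X 3 + ∑ r : Fin 7, cond (tb X (6 + r)) 1 0 := by
  have h15 : tb X 15 = false := by
    rw [tb_eq]
    exact Nat.testBit_lt_two_pow (hX.trans (by norm_num))
  simp only [dg, Fin.sum_univ_succ, Fin.sum_univ_zero]
  show cond (tb X 6) 1 0 + (cond (tb X 12) 1 0 + (cond (tb X 11) 1 0 + (cond (tb X 10) 1 0 +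
    (cond (tb X 9) 1 0 + (cond (tb X 8) 1 0 + (cond (tb X 7) 1 0 + (cond (tb X 15) 1 0 +
    (cond (tb X 3) 1 0 + (cond (tb X 4) 1 0 + (cond (tb X 5) 1 0 + (cond (tb X 5) 1 0 +
    (cond (tb X 4) 1 0 + (cond (tb X 3) 1 0 + 0))))))))))))) =
    2 * (cond (tb X 3) 1 0 + (cond (tb X 4) 1 0 + cond (tb X 5) 1 0)) +
    (cond (tb X 6) 1 0 + (cond (tb X 7) 1 0 + (cond (tb X 8) 1 0 + (cond (tb X 9) 1 0 +
    (cond (tb X 10) 1 0 + (cond (tb X 11) 1 0 + (cond (tb X 12) 1 0 + 0)))))))
  rw [h15]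
  simp only [cond_false]
  omega

theorem dg_lt7 (X : ℕ) {a : Fin 14} (h : a.val < 7) : dg X a = dg X 0 := by
  obtain ⟨i, hi⟩ := orb0 a h
  rw [← hi, dg_inv (inv_pow X i)]

theorem dg_ge7 (X : ℕ) {a : Fin 14} (h : ¬ a.val < 7) : dg X a = dg X 7 := by
  obtain ⟨i, hi⟩ := orb7 a h
  rw [← hi, dg_inv (inv_pow X i)]

theorem col_eq_seven : ∀ a b : Fin 14, col a b = 7 ↔ (a.val < 7 ↔ b.val < 7) := by decide

theorem pres_of_side {x : Perm (Fin 14)} (h : ∀ a : Fin 14, (x a).val < 7 ↔ a.val < 7) : Pres 7 x := by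
  intro u v _
  rw [col_eq_seven, col_eq_seven, h, h]

theorem term_pres {x : Perm (Fin 14)} {X : ℕ} (hX : X < 2 ^ 13) (hx : Inv x X) (h : term X = true) :
    ∃ c < 8, Pres c x := by
  rw [term] at h
  rcases h1 : Nat.beq (pc3 X 0) (pc3 X 3) with _ | _
  · refine ⟨7, by norm_num, pres_of_side fun a => ?_⟩
    have hne : dg X 0 ≠ dg X 7 := by
      rw [dg_zero X hX, dg_seven X hX]
      intro heq
      have : pc3 X 0 = pc3 X 3 := by omega
      rw [this] at h1
      simp at h1
    have h2 := dg_inv hx a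
    by_cases ha : a.val < 7
    · by_cases hxa : (x a).val < 7
      · simp [ha, hxa]
      · rw [dg_lt7 X ha, dg_ge7 X hxa] at h2
        exact absurd h2.symm hne
    · by_cases hxa : (x a).val < 7
      · rw [dg_ge7 X ha, dg_lt7 X hxa] at h2
        exact absurd h2 hne
      · simp [ha, hxa]
  rw [h1, cond_true] at h
  rcases h2 : Nat.beq X 63 with _ | _
  · rw [h2, cond_false] at h
    rcases h3 : Nat.beq X 8128 with _ | _
    · rw [h3, cond_false, anyB_iff] at h
      obtain ⟨r, hr, h4⟩ := h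
      rcases h5 : Nat.beq X (Nat.pow 2 (Nat.add 6 r)) with _ | _
      · rw [h5, cond_false] at h4
        have h6 : X = 8191 - 2 ^ (6 + r) := Nat.eq_of_beq_eq_true h4
        refine ⟨r, by omega, fun u v huv => ?_⟩
        have hxuv : x u ≠ x v := fun h => huv (x.injective h)
        have e1 := col_r' ⟨r, hr⟩ u v huv
        have e2 := col_r' ⟨r, hr⟩ (x u) (x v) hxuv
        have e3 := hx u v
        rw [h6] at e3
        have e1' : adj (8191 - 2 ^ (6 + r)) u v = true ↔ ¬ col u v = r := e1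
        have e2' : adj (8191 - 2 ^ (6 + r)) (x u) (x v) = true ↔ ¬ col (x u) (x v) = r := e2
        rw [e3, e1'] at e2'
        exact (not_iff_not.1 e2').symm
      · have h6 : X = 2 ^ (6 + r) := Nat.eq_of_beq_eq_true h5
        refine ⟨r, by omega, fun u v huv => ?_⟩
        have hxuv : x u ≠ x v := fun h => huv (x.injective h)
        have e1 := col_r ⟨r, hr⟩ u v huv
        have e2 := col_r ⟨r, hr⟩ (x u) (x v) hxuv
        have e3 := hx u v
        rw [h6] at e3
        have e1' : adj (2 ^ (6 + r)) u v = true ↔ col u v = r := e1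
        have e2' : adj (2 ^ (6 + r)) (x u) (x v) = true ↔ col (x u) (x v) = r := e2
        rw [e3, e1'] at e2'
        exact e2'.symm
    · have h6 : X = 8128 := Nat.eq_of_beq_eq_true h3
      refine ⟨7, by omega, fun u v huv => ?_⟩
      have hxuv : x u ≠ x v := fun h => huv (x.injective h)
      have e1 := col_8128 u v huv
      have e2 := col_8128 (x u) (x v) hxuv
      have e3 := hx u v
      rw [h6] at e3
      rw [e3, e1] at e2
      exact (not_iff_not.1 e2).symm
  · have h6 : X = 63 := Nat.eq_of_beq_eq_true h2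
    refine ⟨7, by omega, fun u v huv => ?_⟩
    have hxuv : x u ≠ x v := fun h => huv (x.injective h)
    have e1 := col_63 u v huv
    have e2 := col_63 (x u) (x v) hxuv
    have e3 := hx u v
    rw [h6] at e3
    rw [e3, e1] at e2
    exact e2.symm

/-! ## The orbit of the pair `0, 1` -/

/-- the pairs `a, b` and `c, d` are in one orbit -/
def Rel (x : Perm (Fin 14)) (a b c d : Fin 14) : Prop :=
  ∃ h ∈ Subgroup.closure ({x, sS} : Set (Perm (Fin 14))), (h a = c ∧ h b = d) ∨ (h a = d ∧ h b = c)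

theorem Rel.symm {x : Perm (Fin 14)} {a b c d : Fin 14} (h : Rel x a b c d) : Rel x c d a b := by
  obtain ⟨g, hg, ⟨h1, h2⟩ | ⟨h1, h2⟩⟩ := h
  · exact ⟨g⁻¹, Subgroup.inv_mem _ hg, Or.inl ⟨by rw [← h1]; simp, by rw [← h2]; simp⟩⟩
  · exact ⟨g⁻¹, Subgroup.inv_mem _ hg, Or.inr ⟨by rw [← h2]; simp, by rw [← h1]; simp⟩⟩

theorem Rel.trans {x : Perm (Fin 14)} {a b c d e f : Fin 14} (h : Rel x a b c d) (h' : Rel x c d e f) :
    Rel x a b e f := by
  obtain ⟨g, hg, ⟨h1, h2⟩ | ⟨h1, h2⟩⟩ := h <;> obtain ⟨g', hg', ⟨h3, h4⟩ | ⟨h3, h4⟩⟩ := h'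
  · exact ⟨g' * g, Subgroup.mul_mem _ hg' hg, Or.inl ⟨by simp [h1, h3], by simp [h2, h4]⟩⟩
  · exact ⟨g' * g, Subgroup.mul_mem _ hg' hg, Or.inr ⟨by simp [h1, h3], by simp [h2, h4]⟩⟩
  · exact ⟨g' * g, Subgroup.mul_mem _ hg' hg, Or.inr ⟨by simp [h1, h4], by simp [h2, h3]⟩⟩
  · exact ⟨g' * g, Subgroup.mul_mem _ hg' hg, Or.inl ⟨by simp [h1, h4], by simp [h2, h3]⟩⟩

theorem rel_adj {x : Perm (Fin 14)} {X : ℕ} (hx : Inv x X) {a b c d : Fin 14} (h : Rel x a b c d) :
    adj X a b = adj X c d := by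
  obtain ⟨g, hg, ⟨rfl, rfl⟩ | ⟨rfl, rfl⟩⟩ := h
  · exact (inv_closure hx hg a b).symm
  · rw [adj_symm X (g b) (g a)]
    exact (inv_closure hx hg a b).symm

theorem rel_key {x : Perm (Fin 14)} {X : ℕ} (hx : Inv x X) {a b c d : Fin 14} (h : Rel x a b c d) :
    key2 X a b = key2 X c d := by
  obtain ⟨g, hg, ⟨rfl, rfl⟩ | ⟨rfl, rfl⟩⟩ := h
  · exact (key2_inv (inv_closure hx hg) a b).symm
  · rw [key2_symm X (g b) (g a)]
    exact (key2_inv (inv_closure hx hg) a b).symm

theorem rel_rep (x : Perm (Fin 14)) {a b : Fin 14} (h : a ≠ b) :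
    Rel x (fa ⟨ty a b, ty_lt a b h⟩) (fb ⟨ty a b, ty_lt a b h⟩) a b := by
  obtain ⟨i, hi⟩ := translate a b h
  exact ⟨sS ^ (i : ℕ), Subgroup.pow_mem _ (Subgroup.subset_closure (by simp)) _, hi⟩

open Classical in
/-- the mask of the orbit of the pair `0, 1` -/
noncomputable def orb (x : Perm (Fin 14)) : ℕ :=
  mk (fun u => decide (∃ h : u < 13, Rel x 0 1 (fa ⟨u, h⟩) (fb ⟨u, h⟩))) 13

theorem orb_lt (x : Perm (Fin 14)) : orb x < 2 ^ 13 := mk_lt _ 13

theorem tb_orb (x : Perm (Fin 14)) (u : Fin 13) : tb (orb x) u = true ↔ Rel x 0 1 (fa u) (fb u) := by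
  classical
  rw [orb, tb_mk, decide_eq_true u.2, Bool.true_and, decide_eq_true_iff]
  exact ⟨fun ⟨_, h⟩ => h, fun h => ⟨u.2, h⟩⟩

theorem adj_orb (x : Perm (Fin 14)) {a b : Fin 14} (h : a ≠ b) : adj (orb x) a b = true ↔ Rel x 0 1 a b := by
  have h1 := tb_orb x ⟨ty a b, ty_lt a b h⟩
  have h2 : adj (orb x) a b = tb (orb x) (ty a b) := rfl
  rw [h2]
  constructor
  · intro h3
    exact (h1.1 h3).trans (rel_rep x h)
  · intro h3
    exact h1.2 (h3.trans (rel_rep x h).symm)

theorem orb_inv (x : Perm (Fin 14)) : Inv x (orb x) := by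
  intro a b
  by_cases hab : a = b
  · subst hab
    rw [adj_self _ (orb_lt x), adj_self _ (orb_lt x)]
  · have hxab : x a ≠ x b := fun h => hab (x.injective h)
    rw [Bool.eq_iff_iff, adj_orb x hab, adj_orb x hxab]
    have h1 : Rel x a b (x a) (x b) := ⟨x, Subgroup.subset_closure (by simp), Or.inl ⟨rfl, rfl⟩⟩
    exact ⟨fun h => h.trans h1.symm, fun h => h.trans h1⟩

theorem tb_zero_orb (x : Perm (Fin 14)) : tb (orb x) 0 = true := by
  have h := tb_orb x 0
  refine h.2 ⟨1, Subgroup.one_mem _, Or.inl ⟨?_, ?_⟩⟩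
  · decide
  · decide

/-- invariant relations contain the orbit or are disjoint from it -/
theorem good_pres {x : Perm (Fin 14)} {X : ℕ} (hX : X < 2 ^ 13) (hx : Inv x X)
    (h : good (orb x) X = true) : ∃ c < 8, Pres c x := by
  rw [good] at h
  rcases h1 : term X with _ | _
  · exfalso
    rw [h1, cond_false] at h
    have key : ∀ u, u < 13 → tb (orb x) u = true → tb X u = tb X 0 := by
      intro u hu h2
      have h3 := (tb_orb x ⟨u, hu⟩).1 h2
      have h4 := rel_adj hx h3
      have e1 : adj X (fa ⟨u, hu⟩) (fb ⟨u, hu⟩) = tb X u := by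
        show tb X (ty (ra u) (rb u)) = tb X u
        rw [show ty (ra u) (rb u) = u from ty_rep ⟨u, hu⟩]
      have e2 : adj X (0 : Fin 14) (1 : Fin 14) = tb X 0 := rfl
      rw [← e1, ← h4, e2]
    have key2 : ∀ u, tb (orb x) u = true → tb X u = tb X 0 := by
      intro u h2
      by_cases hu : u < 13
      · exact key u hu h2
      · rw [tb_eq, Nat.testBit_lt_two_pow ((orb_lt x).trans_le
          (Nat.pow_le_pow_right (by norm_num) (by omega)))] at h2
        exact absurd h2 (by decide)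
    have e : ∀ u, (Nat.land X (orb x)).testBit u = (tb X u && tb (orb x) u) := by
      intro u
      rw [tb_eq, tb_eq]
      exact Nat.testBit_and X (orb x) u
    rcases h5 : tb X 0 with _ | _
    · have h6 : Nat.land X (orb x) = 0 := by
        apply Nat.eq_of_testBit_eq
        intro u
        rw [e, Nat.zero_testBit]
        rcases h7 : tb (orb x) u with _ | _
        · simp
        · rw [key2 u h7, h5]; rfl
      rw [h6, show Nat.beq 0 0 = true from rfl, cond_true] at h
      exact absurd h (by decide)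
    · have h6 : Nat.land X (orb x) = orb x := by
        apply Nat.eq_of_testBit_eq
        intro u
        rw [e, ← tb_eq]
        rcases h7 : tb (orb x) u with _ | _
        · simp
        · rw [key2 u h7, h5]; rfl
      rw [h6] at h
      have h7 : Nat.beq (orb x) (orb x) = true := Nat.beq_refl _
      rw [h7] at h
      rcases h8 : Nat.beq (orb x) 0 with _ | _
      · simp only [h8, cond_true, cond_false] at h
        exact absurd h (by decide)
      · simp only [h8, cond_true, cond_false] at h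
        exact absurd h (by decide)
  · exact term_pres hX hx h1

theorem check_pres {x : Perm (Fin 14)} (h : check (orb x) = true) : ∃ c < 8, Pres c x := by
  have hx := orb_inv x
  rw [check] at h
  rcases h1 : term (orb x) with _ | _
  swap
  · exact term_pres (orb_lt x) hx h1
  rw [h1, cond_false] at h
  rcases h2 : (anyB 13 fun u => cond (tb (orb x) u) (cond (Nat.beq (key (orb x) u) (key (orb x) 0)) false true)
    false) with _ | _
  swap
  · exfalso
    obtain ⟨u, hu, h3⟩ := (anyB_iff _ _).1 h2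
    rcases h4 : tb (orb x) u with _ | _
    · rw [h4, cond_false] at h3
      exact absurd h3 (by decide)
    · rw [h4, cond_true] at h3
      have h5 := rel_key hx ((tb_orb x ⟨u, hu⟩).1 h4)
      have h6 := key_rep (orb x) ⟨u, hu⟩
      have h7 := key_rep (orb x) 0
      have h8 : key (orb x) u = key (orb x) 0 := by
        have e1 : key (orb x) u = key2 (orb x) (fa ⟨u, hu⟩) (fb ⟨u, hu⟩) := h6
        have e2 : key (orb x) 0 = key2 (orb x) 0 1 := h7
        rw [e1, e2, h5]
      rw [h8] at h3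
      have h9 : Nat.beq (key (orb x) 0) (key (orb x) 0) = true := Nat.beq_refl _
      rw [h9, cond_true] at h3
      exact absurd h3 (by decide)
  rw [h2, cond_false] at h
  rcases h3 : (anyB 13 fun t => good (orb x) (cls (orb x) t)) with _ | _
  swap
  · obtain ⟨t, _, h4⟩ := (anyB_iff _ _).1 h3
    exact good_pres (cls_lt _ _) (cls_inv hx t) h4
  rw [h3, cond_false] at h
  rcases h3 : (anyB 13 fun t => good (orb x) (cls (cls (orb x) 1) t)) with _ | _
  swap
  · obtain ⟨t, _, h4⟩ := (anyB_iff _ _).1 h3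
    exact good_pres (cls_lt _ _) (cls_inv (cls_inv hx 1) t) h4
  rw [h3, cond_false] at h
  rcases h3 : (anyB 13 fun t => good (orb x) (cls (cls (orb x) 2) t)) with _ | _
  swap
  · obtain ⟨t, _, h4⟩ := (anyB_iff _ _).1 h3
    exact good_pres (cls_lt _ _) (cls_inv (cls_inv hx 2) t) h4
  rw [h3, cond_false] at h
  obtain ⟨t, _, h4⟩ := (anyB_iff _ _).1 h
  exact good_pres (cls_lt _ _) (cls_inv (cls_inv (cls_inv hx 2) 2) t) h4

theorem p1 : P1 := by
  classical
  intro x hx a b c d hab hcd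
  by_contra hcon
  have hcon' : ¬ Rel x a b c d := hcon
  -- some pair is not in the orbit of `0, 1`
  obtain ⟨u, hu⟩ : ∃ u : Fin 13, tb (orb x) u = false := by
    by_contra hall
    push Not at hall
    have h1 : ∀ p q : Fin 14, p ≠ q → Rel x 0 1 p q := by
      intro p q hpq
      rw [← adj_orb x hpq]
      have h3 : tb (orb x) (ty p q) = true := by
        have := hall ⟨ty p q, ty_lt p q hpq⟩
        rcases h4 : tb (orb x) (ty p q) with _ | _
        · exact absurd h4 this
        · rfl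
      exact h3
    exact hcon' ((h1 a b hab).symm.trans (h1 c d hcd))
  have hlt := orb_lt x
  have hodd : orb x % 2 = 1 := by
    have h1 := tb_zero_orb x
    rw [tb_eq, Nat.testBit_zero, decide_eq_true_iff] at h1
    exact h1
  have hne : orb x ≠ 8191 := by
    intro h1
    rw [h1] at hu
    have h2 : ∀ v : Fin 13, tb 8191 v = true := by decide
    rw [h2] at hu
    exact absurd hu (by decide)
  have hcheck : check (orb x) = true := by
    have h1 := allB_iff _ _ check_all (orb x / 2) (by norm_num at hlt; omega)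
    have h2 : Nat.add (Nat.mul 2 (orb x / 2)) 1 = orb x := by
      show 2 * (orb x / 2) + 1 = orb x
      omega
    rw [h2] at h1
    exact h1
  obtain ⟨k, hk, h1⟩ := check_pres hcheck
  exact hx k hk h1

end Pool.Agent.V8H61.TD
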