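import Pool.Agent.V8H61.TD.B3R2
import Pool.Agent.V8H61.TD.B3R3

/-! # (B3) -/

set_option autoImplicit false
set_option maxRecDepth 100000

namespace Pool.Agent.V8H61.TD.B

open Equiv Pool.Agent.V8H69.TD

/-- the property to be proved -/
def Pt (t : Perm (Fin 14)) : Prop := (∃ e ∈ sq, ∀ z : Fin 14, (t z : ℕ) = af e 0 (iv z)) ∨
  ∃ w ∈ Subgroup.closure ({yY, t} : Set (Perm (Fin 14))), QC w

theorem look_lt' (c z : ℕ) : look c z < 16 := by
  show (c >>> (4 * z)) &&& 15 < 16
  exact lt_of_le_of_lt Nat.and_le_right (by norm_num)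

theorem look_lor' (a v k m : ℕ) (hv : v < 16) :
    look (Nat.lor a (Nat.shiftLeft v (Nat.mul 4 k))) m = if m = k then (look a k ||| v) else look a m := by
  show ((a ||| (v <<< (4 * k))) >>> (4 * m)) &&& 15 = if m = k then (((a >>> (4 * k)) &&& 15) ||| v)
    else (a >>> (4 * m)) &&& 15
  have h15 : ∀ i, (15 : ℕ).testBit i = decide (i < 4) := by
    intro i
    have : (15 : ℕ) = 2 ^ 4 - 1 := by norm_num
    rw [this, Nat.testBit_two_pow_sub_one]
  have hv' : ∀ i, 4 ≤ i → v.testBit i = false := by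
    intro i hi
    apply Nat.testBit_lt_two_pow
    calc v < 2 ^ 4 := by simpa using hv
      _ ≤ 2 ^ i := Nat.pow_le_pow_right (by norm_num) hi
  apply Nat.eq_of_testBit_eq
  intro i
  by_cases hmk : m = k
  · subst hmk
    simp only [if_true, Nat.testBit_and, Nat.testBit_shiftRight, Nat.testBit_or, Nat.testBit_shiftLeft, h15]
    by_cases hi : i < 4
    · simp [hi]
    · simp [hi, hv' i (by omega)]
  · simp only [if_neg hmk, Nat.testBit_and, Nat.testBit_shiftRight, Nat.testBit_or, Nat.testBit_shiftLeft, h15]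
    by_cases hi : i < 4
    · rcases Nat.lt_or_gt_of_ne hmk with h | h
      · have : ¬ (4 * k ≤ 4 * m + i) := by omega
        simp [this]
      · have : v.testBit (4 * m + i - 4 * k) = false := hv' _ (by omega)
        simp [this]
    · simp [hi]

theorem yp_val : ∀ a < 13, ∀ z : Fin 14, yp a z = ((yY ^ a) z : ℕ) := by decide +kernel

theorem mem_t (t : Perm (Fin 14)) : t ∈ Subgroup.closure ({yY, t} : Set (Perm (Fin 14))) :=
  Subgroup.subset_closure (by simp)

theorem mem_y (t : Perm (Fin 14)) (a : ℕ) :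
    yY ^ a ∈ Subgroup.closure ({yY, t} : Set (Perm (Fin 14))) :=
  Subgroup.pow_mem _ (Subgroup.subset_closure (by simp)) a

theorem isT_val : ∀ z : Fin 14, look 3487879247075101 z = af 1 0 (iv z) ∧
    look 2916533641943101 z = af 3 0 (iv z) ∧ look 2730944308027981 z = af 4 0 (iv z) ∧
    look 1172175369026461 z = af 9 0 (iv z) ∧ look 986586035111341 z = af 10 0 (iv z) ∧
    look 415240429979341 z = af 12 0 (iv z) := by decide +kernel

theorem cond_or {a b : Bool} (h : cond a true b = true) : a = true ∨ b = true := by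
  cases a with
  | true => exact Or.inl rfl
  | false => exact Or.inr h

theorem cond_and {a b : Bool} (h : cond a b false = true) : a = true ∧ b = true := by
  cases a with
  | true => exact ⟨rfl, h⟩
  | false =>
    rw [cond_false] at h
    exact absurd h Bool.false_ne_true

theorem isT_spec {c : ℕ} {t : Perm (Fin 14)} (hc : Codes c t) (h : isT c = true) : Pt t := by
  have key : ∀ e ∈ sq, ∀ c', (∀ z : Fin 14, look c' z = af e 0 (iv z)) → Nat.beq c c' = true →
      Pt t := by
    intro e he c' hc' hb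
    have h1 : c = c' := Nat.eq_of_beq_eq_true hb
    refine Or.inl ⟨e, he, fun z => ?_⟩
    rw [← hc z, h1, hc' z]
  unfold isT at h
  rcases cond_or h with h1 | h
  · exact key 1 (by decide) _ (fun z => (isT_val z).1) h1
  rcases cond_or h with h1 | h
  · exact key 3 (by decide) _ (fun z => (isT_val z).2.1) h1
  rcases cond_or h with h1 | h
  · exact key 4 (by decide) _ (fun z => (isT_val z).2.2.1) h1
  rcases cond_or h with h1 | h
  · exact key 9 (by decide) _ (fun z => (isT_val z).2.2.2.1) h1
  rcases cond_or h with h1 | h1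
  · exact key 10 (by decide) _ (fun z => (isT_val z).2.2.2.2.1) h1
  · exact key 12 (by decide) _ (fun z => (isT_val z).2.2.2.2.2) h1

theorem w1_spec {c : ℕ} {t : Perm (Fin 14)} (hc : Codes c t) (h : w1 c = true) : Pt t := by
  obtain ⟨k, hk, h1⟩ := anyN_spec h
  refine Or.inr ⟨yY ^ (6 - k) * t, Subgroup.mul_mem _ (mem_y t _) (mem_t t), ?_⟩
  refine Pool.Agent.V8H40.TD.p2 (yY ^ (6 - k) * t) _ ?_ h1
  intro z
  show yp (6 - k) (look c z) = _
  rw [hc z, yp_val _ (by omega)]
  rfl

theorem w2_spec {c : ℕ} {t : Perm (Fin 14)} (hc : Codes c t) (h : w2 c = true) : Pt t := by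
  obtain ⟨k, hk, h1⟩ := anyN_spec h
  obtain ⟨j, hj, h2⟩ := anyN_spec h1
  refine Or.inr ⟨yY ^ (12 - k) * (t * (yY ^ (12 - k - j) * t)), Subgroup.mul_mem _ (mem_y t _)
    (Subgroup.mul_mem _ (mem_t t) (Subgroup.mul_mem _ (mem_y t _) (mem_t t))), ?_⟩
  refine Pool.Agent.V8H40.TD.p2 _ _ ?_ h2
  intro z
  show yp (12 - k) (look c (yp (12 - k - j) (look c z))) = _
  rw [hc z, yp_val _ (by omega), hc, yp_val _ (by omega)]
  rfl

theorem leaf_spec {c : ℕ} {t : Perm (Fin 14)} (hc : Codes c t) (h : leaf c = true)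
    (ht : t * t = 1) (hs : Perm.sign t = 1) : Pt t := by
  unfold leaf at h
  rcases cond_or h with h1 | h
  · exfalso
    have h2 : moved c % 4 = 2 := Nat.eq_of_beq_eq_true h1
    rw [moved_eq hc] at h2
    have h3 := sign_invol ht h2
    rw [hs] at h3
    exact absurd h3 (by decide)
  rcases cond_or h with h1 | h
  · exact isT_spec hc h1
  rcases cond_or h with h1 | h1
  · exact w1_spec hc h1
  · exact w2_spec hc h1

/-- partial tables -/
structure Par (n c : ℕ) (t : Perm (Fin 14)) : Prop where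
  a : ∀ z : Fin 14, look c z = 0 ∨ look c z = t z
  b : ∀ z : Fin 14, look c z ≠ 0 → look c (t z) = z
  d : ∀ z : Fin 14, (z : ℕ) < 13 - n → look c z ≠ 0

/-- the bound for the ratios -/
def Rb (r : ℕ) (t : Perm (Fin 14)) : Prop := ∀ z : Fin 14, (z : ℕ) ≠ 0 → (z : ℕ) ≠ 13 → t z ≠ z →
  r ≤ rat z (t z)

theorem dfs_spec {r : ℕ} {t : Perm (Fin 14)} (ht : t * t = 1) (hs : Perm.sign t = 1)
    (h13 : t 13 = 0) (hr : Rb r t) :
    ∀ n ≤ 12, ∀ c : ℕ, Par n c t → dfs r n c = true → Pt t := by
  have htt : ∀ z, t (t z) = z := fun z => by rw [← Perm.mul_apply, ht, Perm.one_apply]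
  have h0 : t 0 = 13 := by rw [← h13, htt]
  intro n
  induction n with
  | zero =>
    intro _ c hp h
    refine leaf_spec ?_ h ht hs
    intro z
    rcases hp.a z with h1 | h1
    · by_cases hz : (z : ℕ) < 13
      · exact absurd h1 (hp.d z (by omega))
      · have : z = 13 := Fin.ext (by have := z.2; show (z : ℕ) = 13; omega)
        rw [h1, this, h13]
        rfl
    · exact h1
  | succ n ih =>
    intro hn c hp h
    have hu : 12 - n < 14 := by omega
    obtain ⟨u, hu'⟩ : ∃ u : Fin 14, (u : ℕ) = 12 - n := ⟨⟨12 - n, hu⟩, rfl⟩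
    have hlt : ∀ z : Fin 14, (z : ℕ) < u → look c z ≠ 0 := fun z hz => hp.d z (by omega)
    have h' : cond (Nat.beq (look c (12 - n)) 0)
      (cond (dfs r n (fixc c (12 - n)))
        (allN n (fun k => cond (Nat.beq (look c (12 - k)) 0)
          (cond (Nat.ble r (rat (12 - n) (12 - k)))
            (cond (Nat.ble r (rat (12 - k) (12 - n)))
              (dfs r n (swpc c (12 - n) (12 - k))) true) true) true)) false)
      (dfs r n c) = true := h
    rw [← hu'] at h'
    by_cases hcu : look c u = 0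
    · have e1 : Nat.beq (look c u) 0 = true := by rw [hcu]; rfl
      rw [e1, cond_true] at h'
      obtain ⟨hA, hB⟩ := cond_and h'
      have hu0 : (u : ℕ) ≠ 0 := by omega
      have hu13 : (u : ℕ) ≠ 13 := by omega
      by_cases hfix : t u = u
      · refine ih (by omega) (fixc c u) ?_ hA
        have hl : ∀ m, look (fixc c u) m = if m = u then (u : ℕ) else look c m := by
          intro m
          rw [fixc, look_lor' _ _ _ _ (by have := u.2; omega), hcu, Nat.zero_or]
        refine ⟨?_, ?_, ?_⟩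
        · intro z
          rw [hl]
          split_ifs with hz
          · right
            rw [Fin.ext hz, hfix]
          · exact hp.a z
        · intro z hz
          rw [hl] at hz ⊢
          by_cases hzu : z = u
          · rw [hzu, hfix, if_pos rfl]
          · have h2 : (z : ℕ) ≠ u := fun h => hzu (Fin.ext h)
            rw [if_neg h2] at hz
            have h3 : ((t z : Fin 14) : ℕ) ≠ u := by
              intro h
              apply hzu
              apply t.injective
              rw [hfix]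
              exact Fin.ext h
            rw [if_neg h3]
            exact hp.b z hz
        · intro z hz
          rw [hl]
          split_ifs with hzu
          · exact hu0
          · exact hp.d z (by omega)
      · obtain ⟨v, hv⟩ : ∃ v, v = t u := ⟨_, rfl⟩
        have hvu : t v = u := by rw [hv, htt]
        have hv0 : (v : ℕ) ≠ 0 := by
          intro h
          have h2 : v = 0 := Fin.ext h
          rw [h2, h0] at hvu
          exact hu13 (by rw [← hvu]; rfl)
        have hv13 : (v : ℕ) ≠ 13 := by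
          intro h
          have h2 : v = 13 := Fin.ext h
          rw [h2, h13] at hvu
          exact hu0 (by rw [← hvu]; rfl)
        have huv : (u : ℕ) ≠ v := fun h => hfix (by rw [← hv]; exact (Fin.ext h).symm)
        have hcv : look c v = 0 := by
          by_contra h
          have h2 := hp.b v h
          rw [hvu, hcu] at h2
          exact hv0 h2.symm
        have hgt : (u : ℕ) < v := by
          rcases Nat.lt_trichotomy (u : ℕ) v with h | h | h
          · exact h
          · exact absurd h huv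
          · exact absurd hcv (hlt v h)
        have hv14 := v.2
        obtain ⟨k, hk, hkv⟩ : ∃ k < n, 12 - k = (v : ℕ) := ⟨12 - v, by omega, by omega⟩
        have hB' := allN_spec hB k hk
        rw [hkv] at hB'
        have e2 : Nat.beq (look c v) 0 = true := by rw [hcv]; rfl
        have e3 : Nat.ble r (rat u v) = true := by
          apply Nat.ble_eq_true_of_le
          rw [hv]
          exact hr u hu0 hu13 hfix
        have e4 : Nat.ble r (rat v u) = true := by
          apply Nat.ble_eq_true_of_le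
          have h2 := hr v hv0 hv13 (by rw [hvu]; exact fun h => huv (congrArg Fin.val h))
          rw [hvu] at h2
          exact h2
        rw [e2, cond_true, e3, cond_true, e4, cond_true] at hB'
        refine ih (by omega) (swpc c u v) ?_ hB'
        have hl : ∀ m, look (swpc c u v) m =
            if m = v then (u : ℕ) else if m = u then (v : ℕ) else look c m := by
          intro m
          rw [swpc, look_lor' _ _ _ _ (by omega), look_lor' _ _ _ _ (by omega),
            look_lor' _ _ _ _ (by omega), if_neg (Ne.symm huv), hcu, hcv, Nat.zero_or, Nat.zero_or]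
        refine ⟨?_, ?_, ?_⟩
        · intro z
          rw [hl]
          split_ifs with hz hz2
          · right
            rw [Fin.ext hz, hvu]
          · right
            rw [Fin.ext hz2, ← hv]
          · exact hp.a z
        · intro z hz
          by_cases hzv : z = v
          · rw [hzv, hvu, hl, if_neg huv, if_pos rfl]
          by_cases hzu : z = u
          · rw [hzu, ← hv, hl, if_pos rfl]
          have h2 : (z : ℕ) ≠ v := fun h => hzv (Fin.ext h)
          have h3 : (z : ℕ) ≠ u := fun h => hzu (Fin.ext h)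
          rw [hl, if_neg h2, if_neg h3] at hz
          have h4 : ((t z : Fin 14) : ℕ) ≠ v := by
            intro h
            apply hzu
            rw [← htt z, ← htt u, Fin.ext h, ← hv]
          have h5 : ((t z : Fin 14) : ℕ) ≠ u := by
            intro h
            apply hzv
            rw [← htt z, Fin.ext h, hv]
          rw [hl, if_neg h4, if_neg h5]
          exact hp.b z hz
        · intro z hz
          rw [hl]
          split_ifs with h2 h3
          · exact hu0
          · exact hv0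
          · exact hp.d z (by omega)
    · have e1 : Nat.beq (look c u) 0 = false := by
        cases h2 : Nat.beq (look c u) 0 with
        | false => rfl
        | true => exact absurd (Nat.eq_of_beq_eq_true h2) hcu
      rw [e1, cond_false] at h'
      refine ih (by omega) c ⟨hp.a, hp.b, ?_⟩ h'
      intro z hz
      by_cases hzu : (z : ℕ) = u
      · rw [hzu]; exact hcu
      · exact hp.d z (by omega)

/-- the start -/
theorem root_spec {r : ℕ} {t : Perm (Fin 14)} (ht : t * t = 1) (hs : Perm.sign t = 1)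
    (h13 : t 13 = 0) (hr : Rb r t) (h1 : (t 1 : ℕ) = r) (hr2 : 2 ≤ r) (hr12 : r ≤ 12)
    (h : root r = true) : Pt t := by
  have htt : ∀ z, t (t z) = z := fun z => by rw [← Perm.mul_apply, ht, Perm.one_apply]
  have h0 : t 0 = 13 := by rw [← h13, htt]
  refine dfs_spec ht hs h13 hr 12 le_rfl _ ?_ h
  have hl : ∀ m, look (swpc 13 1 r) m = if m = r then 1 else if m = 1 then r else look 13 m := by
    intro m
    rw [swpc, look_lor' _ _ _ _ (by omega), look_lor' _ _ _ _ (by omega),
      look_lor' _ _ _ _ (by omega), if_neg (by omega : ¬ r = 1)]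
    have e1 : look 13 1 = 0 := by decide
    have e2 : ∀ r < 13, 2 ≤ r → look 13 r = 0 := by decide
    rw [e1, e2 r (by omega) hr2, Nat.zero_or, Nat.zero_or]
  have e3 : ∀ m < 14, m ≠ 0 → look 13 m = 0 := by decide
  have e4 : look 13 0 = 13 := by decide
  have tr : ∀ z : Fin 14, (z : ℕ) = r → t z = 1 := by
    intro z hz
    have : z = t 1 := Fin.ext (by rw [h1, hz])
    rw [this, htt]
  refine ⟨?_, ?_, ?_⟩
  · intro z
    rw [hl]
    split_ifs with h2 h3
    · right
      rw [tr z h2]
      rfl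
    · right
      have : z = 1 := Fin.ext h3
      rw [this, h1]
    · by_cases h4 : (z : ℕ) = 0
      · right
        have : z = 0 := Fin.ext h4
        rw [this, h0]
        exact e4
      · left
        exact e3 z z.2 h4
  · intro z hz
    rw [hl] at hz
    by_cases h2 : (z : ℕ) = r
    · rw [tr z h2, hl]
      have h3 : ¬ (((1 : Fin 14) : ℕ) = r) := by
        intro h
        have : ((1 : Fin 14) : ℕ) = 1 := rfl
        omega
      have h4 : ((1 : Fin 14) : ℕ) = 1 := rfl
      rw [if_neg h3, if_pos h4, h2]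
    · rw [if_neg h2] at hz
      by_cases h3 : (z : ℕ) = 1
      · have : z = 1 := Fin.ext h3
        rw [this, h1, hl, if_pos rfl]
        rfl
      · rw [if_neg h3] at hz
        by_cases h4 : (z : ℕ) = 0
        · have : z = 0 := Fin.ext h4
          rw [this, h0, hl]
          have h5 : ((13 : Fin 14) : ℕ) = 13 := rfl
          rw [if_neg (by rw [h5]; omega), if_neg (by rw [h5]; omega)]
          decide
        · exact absurd (e3 z z.2 h4) hz
  · intro z hz
    have h4 : z = 0 := Fin.ext (by show (z : ℕ) = 0; omega)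
    have h5 : ((0 : Fin 14) : ℕ) = 0 := rfl
    rw [h4, hl, h5, if_neg (by omega), if_neg (by omega)]
    decide

/-! ### scaling -/

/-- `z ↦ 2 z` -/
def M : Perm (Fin 14) where
  toFun z := if z.val = 13 then 13 else ⟨(2 * z.val) % 13, by omega⟩
  invFun z := if z.val = 13 then 13 else ⟨(7 * z.val) % 13, by omega⟩
  left_inv := by decide
  right_inv := by decide

theorem M_te : ∀ e ∈ sq, Nat.mod (Nat.mul e 10) 13 ∈ sq ∧ ∀ z : Fin 14, ∀ w : Fin 14,
    (w : ℕ) = af (Nat.mod (Nat.mul e 10) 13) 0 (iv z) → (M w : ℕ) = af e 0 (iv (M z)) := by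
  decide +kernel

theorem te_lt : ∀ e ∈ sq, ∀ z : Fin 14, af e 0 (iv z) < 14 := by decide +kernel

theorem M_y : M * yY ^ 7 * M⁻¹ = yY := by
  ext z
  revert z
  decide +kernel

theorem qc_conj' {w : Perm (Fin 14)} (h : QC w) (a : Perm (Fin 14)) : QC (a * w * a⁻¹) := by
  obtain ⟨N, q, hq, hq7, hc⟩ := h
  refine ⟨N, q, hq, hq7, ?_⟩
  rw [conj_pow, Perm.cycleType_conj, hc]

theorem pt_conj {t : Perm (Fin 14)} (h : Pt (M * t * M⁻¹)) : Pt t := by
  rcases h with ⟨e, he, h⟩ | ⟨w, hw, hq⟩
  · obtain ⟨h1, h2⟩ := M_te e he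
    refine Or.inl ⟨_, h1, fun z => ?_⟩
    have h3 := h2 z ⟨_, te_lt _ h1 z⟩ rfl
    have h4 := h (M z)
    have h5 : (M * t * M⁻¹) (M z) = M (t z) := by
      rw [Perm.mul_apply (M * t), Perm.mul_apply M t]
      exact congrArg (fun x => M (t x)) (M.symm_apply_apply z)
    rw [h5] at h4
    have h6 : M (t z) = M ⟨_, te_lt _ h1 z⟩ := Fin.ext (by rw [h4, h3])
    rw [M.injective h6]
  · right
    have hmap : Subgroup.closure ({yY, M * t * M⁻¹} : Set (Perm (Fin 14))) ≤
        (Subgroup.closure ({yY, t} : Set (Perm (Fin 14)))).map (MulAut.conj M).toMonoidHom := by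
      rw [Subgroup.closure_le]
      rintro x (rfl | hx)
      · exact ⟨yY ^ 7, mem_y t 7, by
          simp only [MulEquiv.toMonoidHom_eq_coe, MonoidHom.coe_coe, MulAut.conj_apply]
          exact M_y⟩
      · rw [Set.mem_singleton_iff] at hx
        rw [hx]
        exact ⟨t, mem_t t, by
          simp only [MulEquiv.toMonoidHom_eq_coe, MonoidHom.coe_coe, MulAut.conj_apply]⟩
    obtain ⟨w', hw', hww⟩ := hmap hw
    refine ⟨w', hw', ?_⟩
    have h1 : w = M * w' * M⁻¹ := by
      rw [← hww]
      simp only [MulEquiv.toMonoidHom_eq_coe, MonoidHom.coe_coe, MulAut.conj_apply]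
    have h2 : w' = M⁻¹ * w * M⁻¹⁻¹ := by
      rw [h1]
      group
    rw [h2]
    exact qc_conj' hq M⁻¹

theorem pt_conj_pow {t : Perm (Fin 14)} (i : ℕ) (h : Pt (M ^ i * t * (M ^ i)⁻¹)) : Pt t := by
  induction i with
  | zero => simpa using h
  | succ i ih =>
    apply ih
    apply pt_conj
    have : M * (M ^ i * t * (M ^ i)⁻¹) * M⁻¹ = M ^ (i + 1) * t * (M ^ (i + 1))⁻¹ := by
      rw [pow_succ']
      group
    rw [this]
    exact h

theorem M_one : ∀ u : Fin 14, (u : ℕ) ≠ 0 → (u : ℕ) ≠ 13 → ∃ i : Fin 12, (M ^ (i : ℕ)) u = 1 := by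
  decide +kernel

theorem M_rat : ∀ i : Fin 12, ∀ a : Fin 14, ∀ b : Fin 14, (a : ℕ) ≠ 0 ∧ (a : ℕ) ≠ 13 ∧
    (b : ℕ) ≠ 0 ∧ (b : ℕ) ≠ 13 → rat ((M ^ (i : ℕ)) a) ((M ^ (i : ℕ)) b) = rat a b := by
  decide +kernel

theorem M_fix : ∀ i : Fin 12, (M ^ (i : ℕ)) 13 = 13 ∧ (M ^ (i : ℕ)) 0 = 0 := by
  decide +kernel

theorem rat_one : ∀ b : Fin 14, (b : ℕ) ≠ 13 → rat ((1 : Fin 14) : ℕ) b = b ∧
    ((b : ℕ) ≠ 0 → rat b ((1 : Fin 14) : ℕ) = iv b) := by
  decide +kernel

end Pool.Agent.V8H61.TD.B

namespace Pool.Agent.V8H61.TD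

open Equiv Pool.Agent.V8H69.TD B

theorem b3 : B3 := by
  intro t ht hs h13
  have htt : ∀ z, t (t z) = z := fun z => by rw [← Perm.mul_apply, ht, Perm.one_apply]
  have h0 : t 0 = 13 := by rw [← h13, htt]
  change Pt t
  -- a moved point
  obtain ⟨S, hS⟩ : ∃ S : Finset (Fin 14), S = Finset.univ.filter
    (fun z : Fin 14 => (z : ℕ) ≠ 0 ∧ (z : ℕ) ≠ 13 ∧ t z ≠ z) := ⟨_, rfl⟩
  have hne : S.Nonempty := by
    rw [Finset.nonempty_iff_ne_empty]
    intro hemp
    have hfix : ∀ z : Fin 14, (z : ℕ) ≠ 0 → (z : ℕ) ≠ 13 → t z = z := by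
      intro z h1 h2
      by_contra h3
      have : z ∈ S := by
        rw [hS, Finset.mem_filter]
        exact ⟨Finset.mem_univ _, h1, h2, h3⟩
      rw [hemp] at this
      exact absurd this (Finset.notMem_empty _)
    have hsup : t.support = {0, 13} := by
      ext z
      rw [Perm.mem_support, Finset.mem_insert, Finset.mem_singleton]
      constructor
      · intro h
        by_contra hcon
        rw [not_or] at hcon
        exact h (hfix z (fun h' => hcon.1 (Fin.ext h')) (fun h' => hcon.2 (Fin.ext h')))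
      · rintro (rfl | rfl)
        · rw [h0]; decide
        · rw [h13]; decide
    have h1 := sign_invol ht (by rw [hsup]; decide)
    rw [hs] at h1
    exact absurd h1 (by decide)
  obtain ⟨u, huS, hmin⟩ := Finset.exists_min_image S (fun z => rat z (t z)) hne
  have hmem : ∀ z : Fin 14, z ∈ S ↔ (z : ℕ) ≠ 0 ∧ (z : ℕ) ≠ 13 ∧ t z ≠ z := by
    intro z
    rw [hS, Finset.mem_filter]
    exact ⟨fun h => h.2, fun h => ⟨Finset.mem_univ _, h⟩⟩
  obtain ⟨hu0, hu13, hut⟩ := (hmem u).1 huS
  -- the image of a moved point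
  have himg : ∀ z : Fin 14, (z : ℕ) ≠ 0 → (z : ℕ) ≠ 13 →
      ((t z : Fin 14) : ℕ) ≠ 0 ∧ ((t z : Fin 14) : ℕ) ≠ 13 := by
    intro z h1 h2
    constructor
    · intro h
      have h3 : t z = 0 := Fin.ext h
      have h4 := htt z
      rw [h3, h0] at h4
      exact h2 (by rw [← h4]; rfl)
    · intro h
      have h3 : t z = 13 := Fin.ext h
      have h4 := htt z
      rw [h3, h13] at h4
      exact h1 (by rw [← h4]; rfl)
  obtain ⟨i, hi⟩ := M_one u hu0 hu13
  obtain ⟨f13, f0⟩ := M_fix i
  obtain ⟨m, hm⟩ : ∃ m, m = M ^ (i : ℕ) := ⟨_, rfl⟩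
  rw [← hm] at hi f13 f0
  have mrat : ∀ a b : Fin 14, (a : ℕ) ≠ 0 ∧ (a : ℕ) ≠ 13 ∧ (b : ℕ) ≠ 0 ∧ (b : ℕ) ≠ 13 →
      rat (m a) (m b) = rat a b := by
    rw [hm]; exact M_rat i
  apply pt_conj_pow (i : ℕ)
  rw [← hm]
  obtain ⟨s, hsd⟩ : ∃ s, s = m * t * m⁻¹ := ⟨_, rfl⟩
  rw [← hsd]
  have sval : ∀ z, s (m z) = m (t z) := by
    intro z
    rw [hsd, Perm.mul_apply (m * t), Perm.mul_apply m t]
    exact congrArg (fun x => m (t x)) (m.symm_apply_apply z)
  have hss : s * s = 1 := by
    rw [hsd]
    calc m * t * m⁻¹ * (m * t * m⁻¹) = m * (t * t) * m⁻¹ := by group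
      _ = 1 := by rw [ht]; group
  have hsign : Perm.sign s = 1 := by
    rw [hsd, map_mul, map_mul, map_inv, hs, mul_one, mul_inv_cancel]
  have hs13 : s 13 = 0 := by
    have := sval 13
    rw [f13, h13, f0] at this
    exact this
  have hs1 : s 1 = m (t u) := by rw [← hi, sval]
  obtain ⟨himg0, himg13⟩ := himg u hu0 hu13
  have hmne : ∀ z : Fin 14, (z : ℕ) ≠ 0 → (z : ℕ) ≠ 13 →
      ((m z : Fin 14) : ℕ) ≠ 0 ∧ ((m z : Fin 14) : ℕ) ≠ 13 := by
    intro z h1 h2
    constructor
    · intro h
      have h3 : m z = m 0 := by rw [f0]; exact Fin.ext h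
      exact h1 (by rw [m.injective h3]; rfl)
    · intro h
      have h3 : m z = m 13 := by rw [f13]; exact Fin.ext h
      exact h2 (by rw [m.injective h3]; rfl)
  obtain ⟨hk0, hk13⟩ := hmne (t u) himg0 himg13
  obtain ⟨r, hrd⟩ : ∃ r, r = ((s 1 : Fin 14) : ℕ) := ⟨_, rfl⟩
  have hrr : r = rat u (t u) := by
    rw [← mrat u (t u) ⟨hu0, hu13, himg0, himg13⟩, hi, hrd, hs1]
    exact ((rat_one _ hk13).1).symm
  have hRb : Rb r s := by
    intro z hz0 hz13 hsz
    obtain ⟨w, hw⟩ : ∃ w, m w = z := ⟨m⁻¹ z, m.apply_symm_apply z⟩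
    have hw0 : (w : ℕ) ≠ 0 := by
      intro h
      have : w = 0 := Fin.ext h
      rw [this, f0] at hw
      exact hz0 (by rw [← hw]; rfl)
    have hw13 : (w : ℕ) ≠ 13 := by
      intro h
      have : w = 13 := Fin.ext h
      rw [this, f13] at hw
      exact hz13 (by rw [← hw]; rfl)
    have hwt : t w ≠ w := by
      intro h
      apply hsz
      rw [← hw, sval, h]
    obtain ⟨g0, g13⟩ := himg w hw0 hw13
    have h1 := hmin w ((hmem w).2 ⟨hw0, hw13, hwt⟩)
    rw [← hw, sval, mrat w (t w) ⟨hw0, hw13, g0, g13⟩, hrr]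
    exact h1
  have hr14 : r < 14 := by rw [hrd]; exact (s 1).2
  have hr0 : r ≠ 0 := by rw [hrd, hs1]; exact hk0
  have hr13 : r ≠ 13 := by rw [hrd, hs1]; exact hk13
  have hr1 : r ≠ 1 := by
    intro h
    apply hut
    apply m.injective
    rw [hi, ← hs1]
    exact Fin.ext (by rw [← hrd, h]; rfl)
  -- the ratio of the pair in the other order
  have hinv : r ≤ iv r := by
    have hs1' : s (s 1) = 1 := by rw [← Perm.mul_apply, hss, Perm.one_apply]
    have h1 := hRb (s 1) (by rw [← hrd]; exact hr0) (by rw [← hrd]; exact hr13) (by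
      rw [hs1']
      intro h
      exact hr1 (by rw [hrd, ← h]; rfl))
    rw [hs1'] at h1
    have h2 := (rat_one (s 1) (by rw [← hrd]; exact hr13)).2 (by rw [← hrd]; exact hr0)
    rw [h2, ← hrd] at h1
    exact h1
  have hcase : r = 2 ∨ r = 3 ∨ r = 4 ∨ r = 5 ∨ r = 6 ∨ r = 12 := by
    have : ∀ r < 14, (r ≠ 0 ∧ r ≠ 13 ∧ r ≠ 1 ∧ r ≤ iv r) →
        r ∈ ([2, 3, 4, 5, 6, 12] : List ℕ) := by decide +kernel
    have h1 := this r hr14 ⟨hr0, hr13, hr1, hinv⟩
    simpa using h1
  have hroot : root r = true := by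
    rcases hcase with rfl | rfl | rfl | rfl | rfl | rfl
    · exact root2
    · exact root3
    · exact root4
    · exact root5
    · exact root6
    · exact root12
  exact root_spec hss hsign hs13 hRb hrd.symm (by omega) (by omega) hroot

end Pool.Agent.V8H61.TD
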