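import Pool.Agent.V8H69.TD.B5Lem
import Pool.Agent.V8H40.TD.P2

/-! # (B3): the search through the involutions which swap `13` and `0` -/

set_option autoImplicit false
set_option maxRecDepth 100000

namespace Pool.Agent.V8H61.TD.B

open Equiv Pool.Agent.V8H69.TD

/-- the power of `yY` -/
def yp (a z : ℕ) : ℕ := cond (Nat.beq z 13) 13 (Nat.mod (Nat.add z a) 13)

/-- the ratio of `b` and `a` modulo `13` -/
def rat (a b : ℕ) : ℕ := Nat.mod (Nat.mul b (iv a)) 13

/-- the code of one of the six elements of `PSL(2, 13)` -/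
def isT (c : ℕ) : Bool :=
  cond (Nat.beq c 3487879247075101) true (cond (Nat.beq c 2916533641943101) true
  (cond (Nat.beq c 2730944308027981) true (cond (Nat.beq c 1172175369026461) true
  (cond (Nat.beq c 986586035111341) true (Nat.beq c 415240429979341)))))

/-- words `y^a t` -/
def w1 (c : ℕ) : Bool := anyN 6 (fun k => test (fun z => yp (Nat.sub 6 k) (look c z)))

/-- words `y^a t y^b t` -/
def w2 (c : ℕ) : Bool := anyN 12 (fun k => anyN (Nat.sub 12 k) (fun j =>
  test (fun z => yp (Nat.sub 12 k) (look c (yp (Nat.sub (Nat.sub 12 k) j) (look c z))))))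

/-- the check of one involution -/
def leaf (c : ℕ) : Bool :=
  cond (Nat.beq (Nat.mod (moved c) 4) 2) true (cond (isT c) true (cond (w1 c) true (w2 c)))

/-- add the fixed point `u` -/
def fixc (c u : ℕ) : ℕ := Nat.lor c (Nat.shiftLeft u (Nat.mul 4 u))

/-- add the transposition of `u` and `v` -/
def swpc (c u v : ℕ) : ℕ := Nat.lor (Nat.lor c (Nat.shiftLeft v (Nat.mul 4 u))) (Nat.shiftLeft u (Nat.mul 4 v))

/-- the search -/
def dfs (r : ℕ) (n : ℕ) : ℕ → Bool :=
  Nat.rec (motive := fun _ => ℕ → Bool) leaf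
    (fun n ih c => cond (Nat.beq (look c (Nat.sub 12 n)) 0)
      (cond (ih (fixc c (Nat.sub 12 n)))
        (allN n (fun k => cond (Nat.beq (look c (Nat.sub 12 k)) 0)
          (cond (Nat.ble r (rat (Nat.sub 12 n) (Nat.sub 12 k)))
            (cond (Nat.ble r (rat (Nat.sub 12 k) (Nat.sub 12 n)))
              (ih (swpc c (Nat.sub 12 n) (Nat.sub 12 k))) true) true) true)) false)
      (ih c)) n

/-- start of the search with `t 1 = r` -/
def root (r : ℕ) : Bool := dfs r 12 (swpc 13 1 r)

end Pool.Agent.V8H61.TD.B
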