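import Pool.Agent.V8H69.TD.Stm

/-! # (B4A): the groups without short prime cycles -/

set_option autoImplicit false

namespace Pool.Agent.V8H61.TD.A

open Equiv Pool.Agent.V8H69.TD

theorem sign_sS' : Perm.sign sS = 1 := by decide +kernel

theorem yY_val (z : Fin 14) : ((yY z : Fin 14) : ℕ) = if (z : ℕ) = 13 then 13 else ((z : ℕ) + 1) % 13 := by
  revert z
  decide +kernel

section grp

variable {G : Subgroup (Perm (Fin 14))}

theorem trans_of (h : ∀ a b c d : Fin 14, a ≠ b → c ≠ d →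
    ∃ g ∈ G, (g a = c ∧ g b = d) ∨ (g a = d ∧ g b = c)) (a c : Fin 14) : ∃ g ∈ G, g a = c := by
  by_cases hac : a = c
  · exact ⟨1, G.one_mem, by rw [Perm.one_apply, hac]⟩
  obtain ⟨b, hba, hbc⟩ : ∃ b : Fin 14, b ≠ a ∧ b ≠ c := by
    revert a c
    decide
  obtain ⟨g, hg, h1 | h1⟩ := h a b c b (Ne.symm hba) (Ne.symm hbc)
  · exact ⟨g, hg, h1.1⟩
  · exact ⟨g * g, G.mul_mem hg hg, by rw [Perm.mul_apply, h1.1, h1.2]⟩

theorem orbit_dvd {α : Type} [MulAction G α] (x : α) :
    (MulAction.orbit G x).ncard ∣ Nat.card G := by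
  rw [← MulAction.index_stabilizer]
  exact Subgroup.index_dvd_card _

theorem two_dvd (h : ∀ a c : Fin 14, ∃ g ∈ G, g a = c) : 2 ∣ Nat.card G := by
  have h1 := orbit_dvd (G := G) (0 : Fin 14)
  have h2 : MulAction.orbit G (0 : Fin 14) = Set.univ := by
    rw [Set.eq_univ_iff_forall]
    intro c
    obtain ⟨g, hg, hgc⟩ := h 0 c
    exact ⟨⟨g, hg⟩, hgc⟩
  rw [h2, Set.ncard_univ, Nat.card_eq_fintype_card, Fintype.card_fin] at h1
  exact (by norm_num : 2 ∣ 14).trans h1

theorem two_trans (h : ∀ a b c d : Fin 14, a ≠ b → c ≠ d →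
    ∃ g ∈ G, (g a = c ∧ g b = d) ∨ (g a = d ∧ g b = c)) (a b c d : Fin 14) (hab : a ≠ b)
    (hcd : c ≠ d) : ∃ g ∈ G, g a = c ∧ g b = d := by
  have : Fact (Nat.Prime 2) := ⟨Nat.prime_two⟩
  obtain ⟨t, ht⟩ := exists_prime_orderOf_dvd_card' 2 (two_dvd (trans_of h))
  have htt : (t : Perm (Fin 14)) * t = 1 := by
    have h1 := pow_orderOf_eq_one t
    rw [ht, pow_two] at h1
    exact congrArg Subtype.val h1
  have ht1 : (t : Perm (Fin 14)) ≠ 1 := by
    intro h1
    have h2 : t = 1 := Subtype.ext h1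
    rw [h2, orderOf_one] at ht
    omega
  obtain ⟨u, hu⟩ : ∃ u, (t : Perm (Fin 14)) u ≠ u := by
    by_contra hcon
    push Not at hcon
    exact ht1 (Equiv.ext hcon)
  obtain ⟨v, hv⟩ : ∃ v, v = (t : Perm (Fin 14)) u := ⟨_, rfl⟩
  have hvu : (t : Perm (Fin 14)) v = u := by
    rw [hv, ← Perm.mul_apply, htt, Perm.one_apply]
  obtain ⟨g, hg, h1 | h1⟩ := h a b c d hab hcd
  · exact ⟨g, hg, h1⟩
  · obtain ⟨k, hk, h2⟩ := h c d u v hcd (by rw [hv]; exact Ne.symm hu)
    have hsw : (k⁻¹ * (t : Perm (Fin 14)) * k) c = d ∧ (k⁻¹ * (t : Perm (Fin 14)) * k) d = c := by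
      simp only [Perm.mul_apply]
      rcases h2 with h2 | h2
      · rw [h2.1, h2.2, ← hv, hvu, Perm.inv_eq_iff_eq, Perm.inv_eq_iff_eq, h2.1, h2.2]
        exact ⟨rfl, rfl⟩
      · rw [h2.1, h2.2, ← hv, hvu, Perm.inv_eq_iff_eq, Perm.inv_eq_iff_eq, h2.1, h2.2]
        exact ⟨rfl, rfl⟩
    refine ⟨k⁻¹ * (t : Perm (Fin 14)) * k * g,
      G.mul_mem (G.mul_mem (G.mul_mem (G.inv_mem hk) t.2) hk) hg, ?_, ?_⟩
    · rw [Perm.mul_apply (k⁻¹ * (t : Perm (Fin 14)) * k), h1.1, hsw.2]
    · rw [Perm.mul_apply (k⁻¹ * (t : Perm (Fin 14)) * k), h1.2, hsw.1]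

theorem thirteen_dvd (h : ∀ a b c d : Fin 14, a ≠ b → c ≠ d → ∃ g ∈ G, g a = c ∧ g b = d) :
    13 ∣ Nat.card G := by
  have h1 := orbit_dvd (G := G) ((0, 1) : Fin 14 × Fin 14)
  have h2 : MulAction.orbit G ((0, 1) : Fin 14 × Fin 14) =
      ((Finset.univ.filter fun p : Fin 14 × Fin 14 => p.1 ≠ p.2 : Finset (Fin 14 × Fin 14)) :
        Set (Fin 14 × Fin 14)) := by
    ext p
    rw [Finset.mem_coe, Finset.mem_filter]
    constructor
    · rintro ⟨g, rfl⟩
      refine ⟨Finset.mem_univ _, ?_⟩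
      change (g : Perm (Fin 14)) 0 ≠ (g : Perm (Fin 14)) 1
      intro h3
      exact absurd ((g : Perm (Fin 14)).injective h3) (by decide)
    · rintro ⟨-, hp⟩
      obtain ⟨g, hg, h3, h4⟩ := h 0 1 p.1 p.2 (by decide) hp
      exact ⟨⟨g, hg⟩, Prod.ext h3 h4⟩
  rw [h2, Set.ncard_coe_finset] at h1
  have h3 : (Finset.univ.filter fun p : Fin 14 × Fin 14 => p.1 ≠ p.2).card = 182 := by
    decide +kernel
  rw [h3] at h1
  exact (by norm_num : 13 ∣ 182).trans h1

end grp

/-- elements of order `13` -/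
theorem cyc13 {y : Perm (Fin 14)} (h : orderOf y = 13) : y.IsCycle ∧ y.support.card = 13 := by
  have hall : ∀ k ∈ y.cycleType, k = 13 := by
    intro k hk
    have h1 := Perm.dvd_of_mem_cycleType hk
    have h2 := Perm.two_le_of_mem_cycleType hk
    rw [h] at h1
    have h4 := (Nat.dvd_prime (by norm_num : Nat.Prime 13)).1 h1
    omega
  have hrep := Multiset.eq_replicate_card.2 hall
  have hsum : y.cycleType.sum = y.support.card := Perm.sum_cycleType y
  rw [hrep, Multiset.sum_replicate, smul_eq_mul] at hsum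
  have hle : y.support.card ≤ 14 := by
    have := Finset.card_le_univ y.support
    rwa [Fintype.card_fin] at this
  have hne : Multiset.card y.cycleType ≠ 0 := by
    intro h0
    rw [Multiset.card_eq_zero, Perm.cycleType_eq_zero] at h0
    rw [h0, orderOf_one] at h
    omega
  have h1 : Multiset.card y.cycleType = 1 := by omega
  exact ⟨Perm.card_cycleType_eq_one.1 h1, by omega⟩

theorem exists_l {y : Perm (Fin 14)} (h13 : y ^ 13 = 1) (h0 : y 0 = 0) (h1 : y 1 = 2) :
    ∃ l : Perm (Fin 14), l 13 = 0 ∧ l 0 = 1 ∧ l 1 = 2 ∧ l⁻¹ * y * l = yY := by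
  have hper : ∀ m : ℕ, (y ^ m) 1 = 1 → 13 ∣ m := by
    intro m hm
    have h2 : Function.minimalPeriod y (1 : Fin 14) ∣ 13 := by
      apply Function.IsPeriodicPt.minimalPeriod_dvd
      change y^[13] 1 = 1
      rw [Perm.iterate_eq_pow, h13, Perm.one_apply]
    have h3 : Function.minimalPeriod y (1 : Fin 14) ∣ m := by
      apply Function.IsPeriodicPt.minimalPeriod_dvd
      change y^[m] 1 = 1
      rw [Perm.iterate_eq_pow, hm]
    rcases (Nat.dvd_prime (by norm_num : Nat.Prime 13)).1 h2 with h4 | h4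
    · exfalso
      rw [Function.minimalPeriod_eq_one_iff_isFixedPt] at h4
      have : y 1 = 1 := h4
      rw [h1] at this
      exact absurd this (by decide)
    · rwa [h4] at h3
  have hpow0 : ∀ m : ℕ, (y ^ m) 0 = 0 := by
    intro m
    induction m with
    | zero => rfl
    | succ m ih => rw [pow_succ, Perm.mul_apply, h0, ih]
  let f : Fin 14 → Fin 14 := fun z => if (z : ℕ) = 13 then 0 else (y ^ (z : ℕ)) 1
  have hf13 : f 13 = 0 := rfl
  have hf : ∀ z : Fin 14, (z : ℕ) ≠ 13 → f z = (y ^ (z : ℕ)) 1 := fun z hz => if_neg hz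
  have hne0 : ∀ m : ℕ, (y ^ m) 1 ≠ 0 := by
    intro m h2
    have h3 : (y ^ m) 1 = (y ^ m) 0 := by rw [h2, hpow0]
    exact absurd ((y ^ m).injective h3) (by decide)
  have key : ∀ a b : Fin 14, (a : ℕ) < b → (b : ℕ) ≠ 13 → f a ≠ f b := by
    intro a b hab hb h2
    rw [hf a (by omega), hf b hb] at h2
    have h3 : (y ^ (b : ℕ)) 1 = (y ^ (a : ℕ)) ((y ^ ((b : ℕ) - a)) 1) := by
      rw [← Perm.mul_apply, ← pow_add]
      congr 2
      omega
    rw [h3] at h2
    have h4 := hper _ ((y ^ (a : ℕ)).injective h2).symm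
    have := b.2
    have := Nat.le_of_dvd (by omega) h4
    omega
  have hinj : Function.Injective f := by
    intro a b hab
    by_contra hne
    have hne' : (a : ℕ) ≠ b := fun h => hne (Fin.ext h)
    by_cases ha : (a : ℕ) = 13
    · have hb : (b : ℕ) ≠ 13 := by omega
      have ha' : a = 13 := Fin.ext ha
      rw [ha', hf13, hf b hb] at hab
      exact hne0 _ hab.symm
    by_cases hb : (b : ℕ) = 13
    · have hb' : b = 13 := Fin.ext hb
      rw [hb', hf13, hf a ha] at hab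
      exact hne0 _ hab
    rcases lt_or_gt_of_ne hne' with h | h
    · exact key a b h hb hab
    · exact key b a h ha hab.symm
  have hbij : Function.Bijective f := Finite.injective_iff_bijective.1 hinj
  refine ⟨Equiv.ofBijective f hbij, rfl, rfl, ?_, ?_⟩
  · change f 1 = 2
    rw [hf 1 (by decide)]
    exact h1
  · have hl : ∀ z, (Equiv.ofBijective f hbij) z = f z := fun z => rfl
    have h2 : y * Equiv.ofBijective f hbij = Equiv.ofBijective f hbij * yY := by
      ext z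
      congr 1
      rw [Perm.mul_apply, Perm.mul_apply, hl, hl]
      by_cases hz : (z : ℕ) = 13
      · have hz' : z = 13 := Fin.ext hz
        rw [hz', hf13, h0]
        rfl
      · have hv := yY_val z
        rw [if_neg hz] at hv
        have hz14 := z.2
        rw [hf z hz, hf (yY z) (by rw [hv]; omega), hv, ← Perm.mul_apply, ← pow_succ']
        by_cases h12 : (z : ℕ) = 12
        · rw [h12]
          change (y ^ 13) 1 = (y ^ 0) 1
          rw [h13, pow_zero]
        · rw [Nat.mod_eq_of_lt (by omega)]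
    rw [mul_assoc, h2, inv_mul_cancel_left]

end Pool.Agent.V8H61.TD.A

namespace Pool.Agent.V8H61.TD

open Equiv Pool.Agent.V8H69.TD A

theorem b4a : P1 → KM → B4A := by
  intro hP1 hKM x hx hpres hqc
  obtain ⟨G, hG⟩ : ∃ G, G = Subgroup.closure ({x, sS} : Set (Perm (Fin 14))) := ⟨_, rfl⟩
  have h2h : ∀ a b c d : Fin 14, a ≠ b → c ≠ d →
      ∃ g ∈ G, (g a = c ∧ g b = d) ∨ (g a = d ∧ g b = c) := by
    rw [hG]
    exact hP1 x hpres
  have htr := two_trans h2h
  have hxG : x ∈ G := by rw [hG]; exact Subgroup.subset_closure (by simp)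
  have hsG : sS ∈ G := by rw [hG]; exact Subgroup.subset_closure (by simp)
  have hsign : ∀ g ∈ G, Perm.sign g = 1 := by
    have h1 : G ≤ alternatingGroup (Fin 14) := by
      rw [hG, Subgroup.closure_le]
      rintro z (rfl | hz)
      · exact Perm.mem_alternatingGroup.2 hx
      · rw [Set.mem_singleton_iff] at hz
        rw [hz]
        exact Perm.mem_alternatingGroup.2 sign_sS'
    exact fun g hg => Perm.mem_alternatingGroup.1 (h1 hg)
  have : Fact (Nat.Prime 13) := ⟨by norm_num⟩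
  obtain ⟨y, hy⟩ := exists_prime_orderOf_dvd_card' 13 (thirteen_dvd htr)
  have hy' : orderOf (y : Perm (Fin 14)) = 13 := by rw [Subgroup.orderOf_coe, hy]
  obtain ⟨hcyc, hsup⟩ := cyc13 hy'
  obtain ⟨p, hp⟩ : ∃ p, (y : Perm (Fin 14)) p = p := by
    by_contra hcon
    push Not at hcon
    have : (y : Perm (Fin 14)).support = Finset.univ := by
      ext z
      rw [Perm.mem_support]
      exact ⟨fun _ => Finset.mem_univ _, fun _ => hcon z⟩
    rw [this, Finset.card_univ, Fintype.card_fin] at hsup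
    omega
  obtain ⟨k, hk, hkp⟩ := trans_of h2h p 0
  obtain ⟨y1, hy1⟩ : ∃ y1, y1 = k * y * k⁻¹ := ⟨_, rfl⟩
  have hy1G : y1 ∈ G := by rw [hy1]; exact G.mul_mem (G.mul_mem hk y.2) (G.inv_mem hk)
  have hy10 : y1 0 = 0 := by
    have : k⁻¹ 0 = p := by rw [Perm.inv_eq_iff_eq, hkp]
    rw [hy1, Perm.mul_apply, Perm.mul_apply, this, hp, hkp]
  have hcyc1 : y1.IsCycle := by rw [hy1]; exact hcyc.conj
  have hsup1 : y1.support.card = 13 := by
    rw [hy1, Perm.support_conj, Finset.card_map, hsup]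
  have hord1 : y1 ^ 13 = 1 := by
    have := pow_orderOf_eq_one (y : Perm (Fin 14))
    rw [hy'] at this
    rw [hy1, conj_pow, this, mul_one, mul_inv_cancel]
  have hmov : ∀ a : Fin 14, a ≠ 0 → y1 a ≠ a := by
    intro a ha h1
    have h2 : y1.support ⊆ (Finset.univ.erase 0).erase a := by
      intro z hz
      rw [Perm.mem_support] at hz
      rw [Finset.mem_erase, Finset.mem_erase]
      refine ⟨?_, ?_, Finset.mem_univ _⟩
      · rintro rfl; exact hz h1
      · rintro rfl; exact hz hy10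
    have h3 := Finset.card_le_card h2
    rw [hsup1, Finset.card_erase_of_mem (Finset.mem_erase.2 ⟨ha, Finset.mem_univ _⟩),
      Finset.card_erase_of_mem (Finset.mem_univ _), Finset.card_univ, Fintype.card_fin] at h3
    omega
  obtain ⟨j, hj⟩ := hcyc1.exists_pow_eq (hmov 1 (by decide)) (hmov 2 (by decide))
  obtain ⟨y2, hy2⟩ : ∃ y2, y2 = y1 ^ j := ⟨_, rfl⟩
  have hy2G : y2 ∈ G := by rw [hy2]; exact G.pow_mem hy1G j
  have hy213 : y2 ^ 13 = 1 := by rw [hy2, ← pow_mul, mul_comm, pow_mul, hord1, one_pow]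
  have hy20 : y2 0 = 0 := by
    have : ∀ m : ℕ, (y1 ^ m) 0 = 0 := by
      intro m
      induction m with
      | zero => rfl
      | succ m ih => rw [pow_succ, Perm.mul_apply, hy10, ih]
    rw [hy2, this]
  have hy21 : y2 1 = 2 := by rw [hy2]; exact hj
  obtain ⟨l, l13, l0, l1, hl⟩ := exists_l hy213 hy20 hy21
  refine ⟨l, l13, l0, l1, ?_⟩
  obtain ⟨H, hH⟩ : ∃ H, H = G.map (MulAut.conj l⁻¹).toMonoidHom := ⟨_, rfl⟩
  have hmem : ∀ w, w ∈ G → l⁻¹ * w * l ∈ H := by
    intro w hw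
    rw [hH]
    refine ⟨w, hw, ?_⟩
    simp only [MulEquiv.toMonoidHom_eq_coe, MonoidHom.coe_coe, MulAut.conj_apply, inv_inv]
  have hmem' : ∀ w, w ∈ H → l * w * l⁻¹ ∈ G := by
    intro w hw
    rw [hH] at hw
    obtain ⟨w', hw', rfl⟩ := hw
    simp only [MulEquiv.toMonoidHom_eq_coe, MonoidHom.coe_coe, MulAut.conj_apply, inv_inv]
    have : l * (l⁻¹ * w' * l) * l⁻¹ = w' := by group
    rw [this]
    exact hw'
  have hK := hKM H (by
      intro h hh
      have h1 := hsign _ (hmem' h hh)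
      rw [map_mul, map_mul, map_inv, mul_comm (Perm.sign l), mul_assoc, mul_inv_cancel,
        mul_one] at h1
      exact h1) (by
      intro a b c d hab hcd
      obtain ⟨g, hg, h1, h2⟩ := htr (l a) (l b) (l c) (l d) (fun h => hab (l.injective h))
        (fun h => hcd (l.injective h))
      refine ⟨l⁻¹ * g * l, hmem g hg, ?_, ?_⟩
      · rw [Perm.mul_apply, Perm.mul_apply, h1]
        exact l.symm_apply_apply c
      · rw [Perm.mul_apply, Perm.mul_apply, h2]
        exact l.symm_apply_apply d) (by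
      rw [← hl]
      exact hmem y2 hy2G) (by
      rintro w hw ⟨N, q, hq, hq7, hc⟩
      refine hqc (l * w * l⁻¹) (by rw [← hG]; exact hmem' w hw) ⟨N, q, hq, hq7, ?_⟩
      rw [conj_pow, Perm.cycleType_conj, hc])
  exact ⟨hK _ (hmem sS hsG), hK _ (hmem x hxG)⟩

end Pool.Agent.V8H61.TD
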